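import Pool.Agent.Lib.MP_b07a8a_nt.Mg.G001
import Pool.Agent.Lib.MP_b07a8a_nt.SP.A7d

section

/-! # The Brun-Hooley sieve -/

set_option autoImplicit false

open Finset

namespace Pool.Agent.SievePar

/-- The indicator of `s % p ∈ S p`. -/
private def A6_I (S : ℕ → Finset ℕ) (s p : ℕ) : ℝ := if s % p ∈ S p then 1 else 0

private theorem A6_prod_I (S : ℕ → Finset ℕ) (D : Finset ℕ) (s : ℕ) :
    ∏ p ∈ D, A6_I S s p = ind S D s := by
  unfold A6_I ind
  rw [Finset.prod_ite_zero]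
  simp

private theorem A6_I_nonneg (S : ℕ → Finset ℕ) (s p : ℕ) : 0 ≤ A6_I S s p := by
  unfold A6_I
  split_ifs <;> norm_num

private theorem A6_I_le (S : ℕ → Finset ℕ) (s p : ℕ) : A6_I S s p ≤ 1 := by
  unfold A6_I
  split_ifs <;> norm_num

/-- The indicator of the sifted event. -/
private theorem A6_event {R : ℕ} (P : Fin R → Finset ℕ) (S : ℕ → Finset ℕ) (s : ℕ) :
    ∏ j, ∏ p ∈ P j, (1 - A6_I S s p) =
      if (∀ j, ∀ p ∈ P j, s % p ∉ S p) then (1 : ℝ) else 0 := by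
  have h1 : ∀ p, (1 - A6_I S s p) = if s % p ∉ S p then (1 : ℝ) else 0 := by
    intro p
    unfold A6_I
    by_cases h : s % p ∈ S p <;> simp [h]
  simp only [h1]
  have h2 : ∀ j, ∏ p ∈ P j, (if s % p ∉ S p then (1 : ℝ) else 0) =
      if (∀ p ∈ P j, s % p ∉ S p) then (1 : ℝ) else 0 := by
    intro j
    rw [Finset.prod_ite_zero]
    simp
  simp only [h2]
  rw [Finset.prod_ite_zero]
  simp

private theorem A6_TT_nonneg {P : Finset ℕ} {w : ℕ → ℝ} (hw0 : ∀ p ∈ P, 0 ≤ w p)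
    (hw1 : ∀ p ∈ P, w p ≤ 1) (m : ℕ) : 0 ≤ TT P (2 * m) w :=
  (Finset.prod_nonneg (fun p hp => by linarith [hw1 p hp])).trans
    ((bonferroni hw0 hw1 (2 * m)).1 (even_two_mul m))

/-- TASK A6. PROOF. Put `I p s = if s % p ∈ S p then 1 else 0`, so
`∏ p ∈ D, I p s = ind S D s` (`Finset.prod_ite_zero`/`Finset.prod_boole`). For `s` let
`X j = ∏ p ∈ P j, (1 - I p s)`, `Y j = TT (P j) (2 * β j) (I · s)`: `0 ≤ X j ≤ Y j` (`bonferroni`) and
`Y j - X j ≤ EE (P j) (2 * β j + 1) (I · s) = Z j` (`TT_sub_le`), and `Y j ≥ 0`. `∏ j, X j` is the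
indicator of the event on the right. By `hooley` (with `univ`)
`∏ X j ≥ ∏ Y j - ∑ l, Z l * ∏ j ∈ univ.erase l, Y j`. Sum over `s ∈ range y`.
`∑ s, ∏ j, Y j`: `block_bound` with `𝒟 j = (P j).powerset.filter (card ≤ 2 β j)`,
`W j D = (-1) ^ D.card`, main term `y * ∏ TT (P j) (2 β j) (wt S)`, error
`∏ j, ∑ D ∈ 𝒟 j, ∏ 2 |S p| ≤ ∏ AA S (P j) (2 β j + 1)` (larger sum of nonnegative terms). For
every `l`: `Z l * ∏ j ∈ univ.erase l, Y j = ∏ j, ∑ D ∈ 𝒟' j, W' j D * ind S D s` where `𝒟' j = 𝒟 j`,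
`W' j = W j` for `j ≠ l` and `𝒟' l = (P l).powersetCard (2 β l + 1)`, `W' l = 1`
(`Finset.mul_prod_erase`), `block_bound` again: main term `y * EE .. * ∏ ..`, error at most
`∏ AA`. Total error `(R + 1) * ∏ AA`. -/
theorem brun_hooley {R : ℕ} (P : Fin R → Finset ℕ) (hP : ∀ j, ∀ p ∈ P j, p.Prime)
    (hdis : ∀ i j, i ≠ j → Disjoint (P i) (P j)) (S : ℕ → Finset ℕ)
    (hS : ∀ p, S p ⊆ range p) (β : Fin R → ℕ) (y : ℕ) :
    (y : ℝ) * (∏ j, TT (P j) (2 * β j) (wt S) -
        ∑ l, EE (P l) (2 * β l + 1) (wt S) * ∏ j ∈ univ.erase l, TT (P j) (2 * β j) (wt S)) -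
      (R + 1) * ∏ j, AA S (P j) (2 * β j + 1) ≤
    (((range y).filter fun s => ∀ j, ∀ p ∈ P j, s % p ∉ S p).card : ℝ) := by
  classical
  -- the right hand side as a sum
  have hR : (((range y).filter fun s => ∀ j, ∀ p ∈ P j, s % p ∉ S p).card : ℝ) =
      ∑ s ∈ range y, ∏ j, ∏ p ∈ P j, (1 - A6_I S s p) := by
    rw [Finset.card_filter]
    push_cast
    apply Finset.sum_congr rfl
    intro s _
    rw [A6_event]
  -- pointwise inequality
  have hpt : ∀ s, ∏ j, TT (P j) (2 * β j) (A6_I S s) -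
      ∑ l, EE (P l) (2 * β l + 1) (A6_I S s) *
        ∏ j ∈ univ.erase l, TT (P j) (2 * β j) (A6_I S s) ≤
      ∏ j, ∏ p ∈ P j, (1 - A6_I S s p) := by
    intro s
    have hh := hooley (Finset.univ : Finset (Fin R))
      (X := fun j => ∏ p ∈ P j, (1 - A6_I S s p))
      (Y := fun j => TT (P j) (2 * β j) (A6_I S s))
      (fun j _ => Finset.prod_nonneg (fun p _ => by linarith [A6_I_le S s p]))
      (fun j _ => (bonferroni (fun p _ => A6_I_nonneg S s p)
        (fun p _ => A6_I_le S s p) (2 * β j)).1 (even_two_mul _))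
    have hle : ∑ l, (TT (P l) (2 * β l) (A6_I S s) - ∏ p ∈ P l, (1 - A6_I S s p)) *
        ∏ j ∈ univ.erase l, TT (P j) (2 * β j) (A6_I S s) ≤
        ∑ l, EE (P l) (2 * β l + 1) (A6_I S s) *
        ∏ j ∈ univ.erase l, TT (P j) (2 * β j) (A6_I S s) := by
      apply Finset.sum_le_sum
      intro l _
      apply mul_le_mul_of_nonneg_right
      · exact TT_sub_le (fun p _ => A6_I_nonneg S s p) (fun p _ => A6_I_le S s p) (β l)
      · exact Finset.prod_nonneg (fun j _ => A6_TT_nonneg (fun p _ => A6_I_nonneg S s p)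
          (fun p _ => A6_I_le S s p) (β j))
    linarith
  -- the families
  let 𝒟 : Fin R → Finset (Finset ℕ) := fun j => (P j).powerset.filter (fun D => D.card ≤ 2 * β j)
  let W : Fin R → Finset ℕ → ℝ := fun _ D => (-1) ^ D.card
  have h𝒟 : ∀ j, ∀ D ∈ 𝒟 j, D ⊆ P j := by
    intro j D hD
    exact Finset.mem_powerset.mp (Finset.mem_filter.mp hD).1
  have hTTI : ∀ s j, TT (P j) (2 * β j) (A6_I S s) = ∑ D ∈ 𝒟 j, W j D * ind S D s := by
    intro s j
    unfold TT
    apply Finset.sum_congr rfl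
    intro D _
    rw [A6_prod_I]
  have hAAnn : ∀ j b, 0 ≤ AA S (P j) b := by
    intro j b
    unfold AA
    exact Finset.sum_nonneg (fun D _ => Finset.prod_nonneg (fun p _ => by positivity))
  have hbd0 : ∀ j, ∑ D ∈ 𝒟 j, |W j D| * ∏ p ∈ D, (2 * ((S p).card : ℝ)) ≤
      AA S (P j) (2 * β j + 1) := by
    intro j
    unfold AA
    calc ∑ D ∈ 𝒟 j, |W j D| * ∏ p ∈ D, (2 * ((S p).card : ℝ))
        = ∑ D ∈ 𝒟 j, ∏ p ∈ D, (2 * ((S p).card : ℝ)) := by
          apply Finset.sum_congr rfl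
          intro D _
          simp [W, abs_pow]
      _ ≤ _ := by
          apply Finset.sum_le_sum_of_subset_of_nonneg
          · intro D hD
            rw [Finset.mem_filter] at hD ⊢
            exact ⟨hD.1, hD.2.trans (Nat.le_succ _)⟩
          · intro D _ _
            exact Finset.prod_nonneg (fun p _ => by positivity)
  have h1 : |∑ s ∈ range y, ∏ j, TT (P j) (2 * β j) (A6_I S s) -
      y * ∏ j, TT (P j) (2 * β j) (wt S)| ≤ ∏ j, AA S (P j) (2 * β j + 1) := by
    have hb := block_bound P hP hdis S hS 𝒟 h𝒟 W y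
    have e1 : ∑ s ∈ range y, ∏ j, TT (P j) (2 * β j) (A6_I S s) =
        ∑ s ∈ range y, ∏ j, ∑ D ∈ 𝒟 j, W j D * ind S D s := by
      apply Finset.sum_congr rfl
      intro s _
      apply Finset.prod_congr rfl
      intro j _
      exact hTTI s j
    rw [e1]
    refine hb.trans ?_
    apply Finset.prod_le_prod
    · intro j _
      exact Finset.sum_nonneg (fun D _ => mul_nonneg (abs_nonneg _)
        (Finset.prod_nonneg (fun p _ => by positivity)))
    · intro j _
      exact hbd0 j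
  have h2 : ∀ l, |∑ s ∈ range y, (EE (P l) (2 * β l + 1) (A6_I S s) *
        ∏ j ∈ univ.erase l, TT (P j) (2 * β j) (A6_I S s)) -
      y * (EE (P l) (2 * β l + 1) (wt S) *
        ∏ j ∈ univ.erase l, TT (P j) (2 * β j) (wt S))| ≤ ∏ j, AA S (P j) (2 * β j + 1) := by
    intro l
    let 𝒟' : Fin R → Finset (Finset ℕ) := fun j =>
      if j = l then (P j).powersetCard (2 * β j + 1) else 𝒟 j
    let W' : Fin R → Finset ℕ → ℝ := fun j D => if j = l then 1 else W j D
    have h𝒟' : ∀ j, ∀ D ∈ 𝒟' j, D ⊆ P j := by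
      intro j D hD
      by_cases hj : j = l
      · simp only [𝒟', if_pos hj] at hD
        exact (Finset.mem_powersetCard.mp hD).1
      · simp only [𝒟', if_neg hj] at hD
        exact h𝒟 j D hD
    have hb := block_bound P hP hdis S hS 𝒟' h𝒟' W' y
    have e1 : ∀ s, (EE (P l) (2 * β l + 1) (A6_I S s) *
        ∏ j ∈ univ.erase l, TT (P j) (2 * β j) (A6_I S s)) =
        ∏ j, ∑ D ∈ 𝒟' j, W' j D * ind S D s := by
      intro s
      rw [← Finset.mul_prod_erase univ _ (Finset.mem_univ l)]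
      congr 1
      · simp only [𝒟', W', if_true, EE, one_mul]
        apply Finset.sum_congr rfl
        intro D _
        rw [A6_prod_I]
      · apply Finset.prod_congr rfl
        intro j hj
        have hjl : j ≠ l := (Finset.mem_erase.mp hj).1
        simp only [𝒟', W', if_neg hjl]
        exact hTTI s j
    have e2 : (EE (P l) (2 * β l + 1) (wt S) *
        ∏ j ∈ univ.erase l, TT (P j) (2 * β j) (wt S)) =
        ∏ j, ∑ D ∈ 𝒟' j, W' j D * ∏ p ∈ D, wt S p := by
      rw [← Finset.mul_prod_erase univ _ (Finset.mem_univ l)]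
      congr 1
      · simp only [𝒟', W', if_true, EE, one_mul]
      · apply Finset.prod_congr rfl
        intro j hj
        have hjl : j ≠ l := (Finset.mem_erase.mp hj).1
        simp only [𝒟', W', if_neg hjl]
        rfl
    rw [Finset.sum_congr rfl (fun s _ => e1 s), e2]
    refine hb.trans ?_
    apply Finset.prod_le_prod
    · intro j _
      exact Finset.sum_nonneg (fun D _ => mul_nonneg (abs_nonneg _)
        (Finset.prod_nonneg (fun p _ => by positivity)))
    · intro j _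
      by_cases hj : j = l
      · simp only [𝒟', W', if_pos hj]
        unfold AA
        calc ∑ D ∈ (P j).powersetCard (2 * β j + 1), |(1 : ℝ)| * ∏ p ∈ D, (2 * ((S p).card : ℝ))
            = ∑ D ∈ (P j).powersetCard (2 * β j + 1), ∏ p ∈ D, (2 * ((S p).card : ℝ)) := by
              apply Finset.sum_congr rfl
              intro D _
              simp
          _ ≤ _ := by
              apply Finset.sum_le_sum_of_subset_of_nonneg
              · intro D hD
                rw [Finset.mem_powersetCard] at hD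
                rw [Finset.mem_filter, Finset.mem_powerset]
                exact ⟨hD.1, hD.2.le⟩
              · intro D _ _
                exact Finset.prod_nonneg (fun p _ => by positivity)
      · simp only [𝒟', W', if_neg hj]
        exact hbd0 j
  -- assembly
  rw [hR]
  set A := ∏ j, AA S (P j) (2 * β j + 1) with hA
  have hsum : ∑ s ∈ range y, (∏ j, TT (P j) (2 * β j) (A6_I S s) -
      ∑ l, EE (P l) (2 * β l + 1) (A6_I S s) *
        ∏ j ∈ univ.erase l, TT (P j) (2 * β j) (A6_I S s)) ≤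
      ∑ s ∈ range y, ∏ j, ∏ p ∈ P j, (1 - A6_I S s p) :=
    Finset.sum_le_sum (fun s _ => hpt s)
  refine le_trans ?_ hsum
  rw [Finset.sum_sub_distrib, Finset.sum_comm]
  have h1' := (abs_le.mp h1).1
  have h2' : ∑ l, ∑ s ∈ range y, (EE (P l) (2 * β l + 1) (A6_I S s) *
        ∏ j ∈ univ.erase l, TT (P j) (2 * β j) (A6_I S s)) ≤
      ∑ l, (y * (EE (P l) (2 * β l + 1) (wt S) *
        ∏ j ∈ univ.erase l, TT (P j) (2 * β j) (wt S)) + A) := by
    apply Finset.sum_le_sum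
    intro l _
    have := (abs_le.mp (h2 l)).2
    linarith
  rw [Finset.sum_add_distrib, Finset.sum_const, Finset.card_univ, Fintype.card_fin,
    nsmul_eq_mul, ← Finset.mul_sum] at h2'
  rw [mul_sub]
  linarith

end Pool.Agent.SievePar
end

section

/-! # The sieve for the blocks of primes -/

set_option autoImplicit false

open Finset

namespace Pool.Agent.SievePar

/-- TASK A7e. PROOF. Choose `m` with `2 exp (16 k) ≤ 4 ^ m` and `R₀` from `exists_level k` (`R₀ ≥ 1`).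
`brun_hooley` with the blocks, `y = 2 ^ (2 ^ R * (16 * m + 24)) = N ^ 2`, `N = 2 ^ (2 ^ R * (8 * m + 12))`:
the cardinality is at least `N ^ 2 / 2 * exp (-8 k R) - (R + 1) * N ≥ N` because
`N ≥ 2 ^ 2 ^ R ≥ 2 (R + 2) exp (8 k R)`. A number `s` counted there (`s % p ∉ S p` for all `p` in the
blocks `j < R`) is in `sv` (`mem_sv`): a prime `p ≤ 2 ^ 2 ^ R` is `2` (then `S p = ∅` by `hS0`, as
`2 ≤ 2 ^ 2 ^ l₀`) or in a block `j < R` (`exists_blk`). -/
theorem sieve_count (k l₀ : ℕ) (hk : 2 * k + 1 ≤ 2 ^ 2 ^ l₀) :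
    ∃ m R₀ : ℕ, ∀ S : ℕ → Finset ℕ, (∀ p, S p ⊆ range p) → (∀ p, (S p).card ≤ k) →
      (∀ p, p ≤ 2 ^ 2 ^ l₀ → S p = ∅) → ∀ R : ℕ, R₀ ≤ R →
      2 ^ (2 ^ R * (8 * m + 12)) ≤
        (sv S (2 ^ 2 ^ R) (2 ^ (2 ^ R * (16 * m + 24)))).card := by
  obtain ⟨m, hm⟩ := pow_unbounded_of_one_lt (2 * Real.exp (16 * k)) (by norm_num : (1 : ℝ) < 4)
  obtain ⟨R₀, hR₀⟩ := exists_level k
  refine ⟨m, R₀, fun S hS hSk hS0 R hR => ?_⟩
  have h1 := brun_hooley (R := R) (fun j => blk j) (fun j p hp => (mem_blk.1 hp).2.2)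
    (fun i j hij => disjoint_blk (fun h => hij (Fin.ext h))) S hS
    (fun j => m + (R - 1 - j)) (2 ^ (2 ^ R * (16 * m + 24)))
  have h2 := main_term hk hm.le hSk hS0 R
  have h3 := prod_AA_le hk hSk hS0 m R
  have h4 := hR₀ R hR
  set N : ℝ := 2 ^ (2 ^ R * (8 * m + 12)) with hN
  have hN1 : (1 : ℝ) ≤ N := one_le_pow₀ (by norm_num)
  have hN2 : (2 : ℝ) ^ 2 ^ R ≤ N := by
    rw [hN]
    refine pow_le_pow_right₀ (by norm_num) ?_
    calc 2 ^ R = 2 ^ R * 1 := (mul_one _).symm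
      _ ≤ 2 ^ R * (8 * m + 12) := Nat.mul_le_mul_left _ (by omega)
  have hy : ((2 ^ (2 ^ R * (16 * m + 24)) : ℕ) : ℝ) = N * N := by
    rw [hN, ← pow_add]
    push_cast
    congr 1
    ring
  -- the filtered set is contained in `sv`
  have h5 : (((range (2 ^ (2 ^ R * (16 * m + 24)))).filter fun s =>
      ∀ j : Fin R, ∀ p ∈ blk j, s % p ∉ S p)).card ≤
      (sv S (2 ^ 2 ^ R) (2 ^ (2 ^ R * (16 * m + 24)))).card := by
    refine Finset.card_le_card fun s hs => ?_
    rw [Finset.mem_filter, Finset.mem_range] at hs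
    rw [mem_sv]
    refine ⟨hs.1, fun p hp hpR => ?_⟩
    rcases Nat.lt_or_ge 2 p with h6 | h6
    · obtain ⟨j, hj, hpj⟩ := exists_blk hp h6 hpR
      exact hs.2 ⟨j, hj⟩ p hpj
    · have h7 : p ≤ 2 ^ 2 ^ l₀ := by
        refine h6.trans ?_
        calc 2 = 2 ^ 1 := rfl
          _ ≤ 2 ^ 2 ^ l₀ := Nat.pow_le_pow_right (by norm_num) Nat.one_le_two_pow
      rw [hS0 p h7]
      exact Finset.notMem_empty _
  have h6 : N ≤ ((sv S (2 ^ 2 ^ R) (2 ^ (2 ^ R * (16 * m + 24)))).card : ℝ) := by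
    refine le_trans ?_ (h1.trans (by exact_mod_cast h5))
    rw [hy]
    have h7 : N * N * ((1 / 2 : ℝ) * Real.exp (-(8 * k * R))) ≤ N * N *
      (∏ j : Fin R, TT (blk j) (2 * (m + (R - 1 - j))) (wt S) -
        ∑ l : Fin R, EE (blk l) (2 * (m + (R - 1 - l)) + 1) (wt S) *
          ∏ j ∈ univ.erase l, TT (blk j) (2 * (m + (R - 1 - j))) (wt S)) :=
      mul_le_mul_of_nonneg_left h2 (by positivity)
    have h8 : ((R : ℝ) + 1) * ∏ j : Fin R, AA S (blk j) (2 * (m + (R - 1 - j)) + 1) ≤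
        ((R : ℝ) + 1) * N := mul_le_mul_of_nonneg_left h3 (by positivity)
    have h9 : ((R : ℝ) + 2) * N ≤ N * N * ((1 / 2 : ℝ) * Real.exp (-(8 * k * R))) := by
      have h10 : 2 * ((R : ℝ) + 2) * Real.exp (8 * k * R) ≤ N := h4.trans hN2
      have h11 : Real.exp (8 * k * R) * Real.exp (-(8 * k * R)) = 1 := by
        rw [← Real.exp_add, add_neg_cancel, Real.exp_zero]
      have h12 : 0 < Real.exp (-(8 * k * R)) := Real.exp_pos _
      have h13 : 2 * ((R : ℝ) + 2) ≤ N * Real.exp (-(8 * k * R)) := by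
        calc 2 * ((R : ℝ) + 2) = 2 * ((R : ℝ) + 2) * (Real.exp (8 * k * R) *
              Real.exp (-(8 * k * R))) := by rw [h11, mul_one]
          _ = 2 * ((R : ℝ) + 2) * Real.exp (8 * k * R) * Real.exp (-(8 * k * R)) := by ring
          _ ≤ N * Real.exp (-(8 * k * R)) := mul_le_mul_of_nonneg_right h10 h12.le
      have h14 : 2 * ((R : ℝ) + 2) * N ≤ N * Real.exp (-(8 * k * R)) * N :=
        mul_le_mul_of_nonneg_right h13 (by linarith)
      nlinarith [h14]
    linarith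
  rw [hN] at h6
  exact_mod_cast h6

end Pool.Agent.SievePar
end

section

/-! # The sieve for a reduced polynomial -/

set_option autoImplicit false

open Finset Polynomial

namespace Pool.Agent.SievePar

/-- TASK A8f. PROOF. `sieve_count` with `k = F.natDegree`, `S = rts F` (empty for `p ≤ 2 ^ 2 ^ l₀` by `hsm`): for `R ≥ R₀` there are at least
`N = 2 ^ (2 ^ R * (8 m + 12))` numbers `s < N ^ 2` such that no prime `p ≤ z = 2 ^ 2 ^ R` divides
`F.eval s` (`mod_mem_rts`). Remove the at most `natDegree` zeros of `F` (`card_roots'`; `F ≠ 0` because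
`coeff 0 = 1`); `N - natDegree ≥ 2 ^ 2 ^ R` for large `R`. For the others
`|F.eval s| ≤ C * (N ^ 2) ^ natDegree ≤ z ^ (natDegree * (16 m + 24) + 1)` once `C ≤ z`, and
`Omega_le`. So `u = 16 m + 24`, `K = natDegree * (16 m + 24) + 1`. -/
theorem reduced_count {l₀ : ℕ} (F : ℤ[X]) (hF : F.coeff 0 = 1)
    (hl : 2 * F.natDegree + 1 ≤ 2 ^ 2 ^ l₀)
    (hsm : ∀ p : ℕ, p.Prime → p ≤ 2 ^ 2 ^ l₀ → ∀ s : ℤ, ¬ (p : ℤ) ∣ F.eval s) :
    ∃ K u R₀ : ℕ, ∀ R : ℕ, R₀ ≤ R → 2 ^ 2 ^ R ≤ (gd F 1 K (2 ^ (2 ^ R * u))).card := by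
  classical
  obtain ⟨m, R₁, hs⟩ := sieve_count F.natDegree l₀ hl
  obtain ⟨C, hC1, hC⟩ := natAbs_eval_le F
  have hF0 : F ≠ 0 := by
    intro h
    rw [h, Polynomial.coeff_zero] at hF
    exact zero_ne_one hF
  have hsub : ∀ p, rts F p ⊆ range p := by
    intro p
    unfold rts
    split_ifs
    · exact Finset.filter_subset _ _
    · exact Finset.empty_subset _
  have hemp : ∀ p, p ≤ 2 ^ 2 ^ l₀ → rts F p = ∅ := by
    intro p hp
    unfold rts
    split_ifs with hpp
    · rw [Finset.filter_eq_empty_iff]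
      intro s _
      exact hsm p hpp hp s
    · rfl
  refine ⟨F.natDegree * (16 * m + 24) + 1, 16 * m + 24, R₁ + l₀ + C, ?_⟩
  intro R hR
  have hN := hs (rts F) hsub (card_rts_le F hF) hemp R (by omega)
  obtain ⟨z, hz⟩ : ∃ z : ℕ, z = 2 ^ 2 ^ R := ⟨_, rfl⟩
  obtain ⟨y, hy⟩ : ∃ y : ℕ, y = 2 ^ (2 ^ R * (16 * m + 24)) := ⟨_, rfl⟩
  have hyz : y = z ^ (16 * m + 24) := by rw [hy, hz, ← pow_mul]
  have hNz : 2 ^ (2 ^ R * (8 * m + 12)) = z ^ (8 * m + 12) := by rw [hz, ← pow_mul]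
  have hz2 : 2 ≤ z := by
    rw [hz]
    calc 2 = 2 ^ 1 := by norm_num
      _ ≤ 2 ^ 2 ^ R := Nat.pow_le_pow_right (by norm_num) Nat.one_le_two_pow
  have hz1 : 1 ≤ z := by omega
  have hy1 : 1 ≤ y := by rw [hyz]; exact Nat.one_le_pow _ _ hz1
  have hCz : C ≤ z := by
    rw [hz]
    have h1 : C < 2 ^ C := Nat.lt_two_pow_self
    have h2 : C < 2 ^ R := h1.trans_le (Nat.pow_le_pow_right (by norm_num) (by omega))
    exact (h2.trans Nat.lt_two_pow_self).le
  have hkz : F.natDegree ≤ z := by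
    have h1 : (2 : ℕ) ^ 2 ^ l₀ ≤ z := by
      rw [hz]
      exact Nat.pow_le_pow_right (by norm_num) (Nat.pow_le_pow_right (by norm_num) (by omega))
    omega
  rw [hNz, ← hz, ← hy] at hN
  rw [← hz, ← hy]
  set T := sv (rts F) z y with hT
  set Z := T.filter fun s : ℕ => F.eval (s : ℤ) = 0 with hZ
  have hZc : Z.card ≤ F.natDegree := by
    have h1 : (Z.image (fun s : ℕ => (s : ℤ))) ⊆ F.roots.toFinset := by
      intro x hx
      obtain ⟨s, hs1, hs2⟩ := Finset.mem_image.mp hx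
      rw [Multiset.mem_toFinset, Polynomial.mem_roots hF0, Polynomial.IsRoot.def, ← hs2]
      exact (Finset.mem_filter.mp hs1).2
    have h2 : (Z.image (fun s : ℕ => (s : ℤ))).card = Z.card :=
      Finset.card_image_of_injective _ Nat.cast_injective
    rw [← h2]
    exact (Finset.card_le_card h1).trans ((Multiset.toFinset_card_le _).trans
      (Polynomial.card_roots' F))
  have hsubset : T \ Z ⊆ gd F 1 (F.natDegree * (16 * m + 24) + 1) y := by
    intro s hs'
    have hsT : s ∈ T := (Finset.mem_sdiff.mp hs').1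
    have hsZ : s ∉ Z := (Finset.mem_sdiff.mp hs').2
    have hsv := mem_sv.mp hsT
    have hne : F.eval (s : ℤ) ≠ 0 := by
      intro h
      exact hsZ (Finset.mem_filter.mpr ⟨hsT, h⟩)
    rw [mem_gd, one_mul]
    refine ⟨hsv.1, hne, ?_⟩
    refine Omega_le (z := z) (Int.natAbs_ne_zero.mpr hne) hz1 ?_ ?_
    · intro p hp hd
      by_contra hcon
      have hpz : p ≤ z := not_lt.mp hcon
      apply hsv.2 p hp hpz
      rw [mod_mem_rts F hp s]
      exact Int.natCast_dvd.mpr hd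
    · calc (F.eval (s : ℤ)).natAbs ≤ C * y ^ F.natDegree := hC y s hy1 hsv.1.le
        _ ≤ z * y ^ F.natDegree := Nat.mul_le_mul_right _ hCz
        _ = z ^ (F.natDegree * (16 * m + 24) + 1) := by
          rw [hyz, ← pow_mul, pow_succ, mul_comm z, mul_comm F.natDegree]
  have h3 : T.card ≤ (T \ Z).card + Z.card := by
    rw [Finset.card_sdiff_add_card]
    exact Finset.card_le_card (Finset.subset_union_left)
  have h4 := Finset.card_le_card hsubset
  have h5 : z + z ≤ z ^ (8 * m + 12) := by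
    calc z + z = 2 * z := by ring
      _ ≤ z * z := Nat.mul_le_mul_right _ hz2
      _ = z ^ 2 := by ring
      _ ≤ z ^ (8 * m + 12) := Nat.pow_le_pow_right hz1 (by omega)
  omega

end Pool.Agent.SievePar
end
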