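import Mathlib

section

/-!
# Sieve and parity (MP_b07a8a_nt): definitions for the sieve part

`S p` is a set of residues modulo `p` (a subset of `range p`), for every prime `p`.
-/

set_option autoImplicit false

open Finset

namespace Pool.Agent.SievePar

/-- The number of `s < y` whose residue modulo `p` lies in `S p` for every `p ∈ F`. -/
def cnt (S : ℕ → Finset ℕ) (F : Finset ℕ) (y : ℕ) : ℕ :=
  ((range y).filter fun s => ∀ p ∈ F, s % p ∈ S p).card

/-- The indicator function of the event counted by `cnt`. -/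
def ind (S : ℕ → Finset ℕ) (D : Finset ℕ) (s : ℕ) : ℝ :=
  if ∀ p ∈ D, s % p ∈ S p then 1 else 0

/-- The density of the set of residues. -/
noncomputable def wt (S : ℕ → Finset ℕ) (p : ℕ) : ℝ := ((S p).card : ℝ) / p

/-- The truncated inclusion-exclusion sum of level `b` with weights `w`. -/
def TT (P : Finset ℕ) (b : ℕ) (w : ℕ → ℝ) : ℝ :=
  ∑ D ∈ P.powerset.filter (fun D => D.card ≤ b), (-1) ^ D.card * ∏ p ∈ D, w p

/-- The elementary symmetric sum of degree `m`. -/
def EE (P : Finset ℕ) (m : ℕ) (w : ℕ → ℝ) : ℝ := ∑ D ∈ P.powersetCard m, ∏ p ∈ D, w p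

/-- The sum of `∏ 2 |S p|` over the subsets with at most `b` elements. -/
def AA (S : ℕ → Finset ℕ) (P : Finset ℕ) (b : ℕ) : ℝ :=
  ∑ D ∈ P.powerset.filter (fun D => D.card ≤ b), ∏ p ∈ D, (2 * ((S p).card : ℝ))

/-- The primes `p` with `2 ^ 2 ^ j < p ≤ 2 ^ 2 ^ (j + 1)`. -/
def blk (j : ℕ) : Finset ℕ := (Finset.Ioc (2 ^ 2 ^ j) (2 ^ 2 ^ (j + 1))).filter Nat.Prime

/-- The numbers `s < y` whose residue modulo `p` is not in `S p`, for every prime `p ≤ z`. -/
def sv (S : ℕ → Finset ℕ) (z y : ℕ) : Finset ℕ :=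
  (range y).filter fun s => ∀ p ∈ (range (z + 1)).filter Nat.Prime, s % p ∉ S p

theorem mem_sv {S : ℕ → Finset ℕ} {z y s : ℕ} :
    s ∈ sv S z y ↔ s < y ∧ ∀ p, p.Prime → p ≤ z → s % p ∉ S p := by
  unfold sv
  simp only [Finset.mem_filter, Finset.mem_range]
  constructor
  · rintro ⟨h1, h2⟩
    exact ⟨h1, fun p hp hz => h2 p ⟨Nat.lt_succ_of_le hz, hp⟩⟩
  · rintro ⟨h1, h2⟩
    exact ⟨h1, fun p hp => h2 p hp.2 (Nat.le_of_lt_succ hp.1)⟩

theorem mem_blk {j p : ℕ} :
    p ∈ blk j ↔ 2 ^ 2 ^ j < p ∧ p ≤ 2 ^ 2 ^ (j + 1) ∧ p.Prime := by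
  unfold blk
  rw [Finset.mem_filter, Finset.mem_Ioc, and_assoc]

theorem ind_nonneg (S : ℕ → Finset ℕ) (D : Finset ℕ) (s : ℕ) : 0 ≤ ind S D s := by
  unfold ind
  split_ifs <;> norm_num

theorem wt_nonneg (S : ℕ → Finset ℕ) (p : ℕ) : 0 ≤ wt S p := by
  unfold wt
  positivity

end Pool.Agent.SievePar
end

section

/-! # Reduction to the constant coefficient one -/

set_option autoImplicit false

open Finset Polynomial

namespace Pool.Agent.SievePar

/-- TASK A8e. PROOF. `κ = G.natDegree`, `l₀` with `2 κ + 1 ≤ 2 ^ 2 ^ l₀`, `Q = primorial (2 ^ 2 ^ l₀)`,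
`g₀ = G.coeff 0`, `c = |g₀| * Q`, `ε = sign g₀` (so `c = ε * g₀ * Q`),
`F = 1 + C (ε * Q) * X * (G.divX).comp (C c * X)`. Then `F.coeff 0 = 1`, `natDegree F ≤ κ`, and for
every integer `s`: `G.eval (c * s) = g₀ + c * s * (G.divX).eval (c * s) = g₀ * F.eval s`
(`G = G.divX * X + C g₀`: `Polynomial.divX_mul_X_add`), and a prime `p ≤ 2 ^ 2 ^ l₀` never divides
`F.eval s = 1 + Q * (..)`. -/
theorem exists_reduced (G : ℤ[X]) (hG : G.coeff 0 ≠ 0) :
    ∃ (l₀ : ℕ) (Q : ℕ) (F : ℤ[X]), 1 ≤ Q ∧ F.coeff 0 = 1 ∧ 2 * F.natDegree + 1 ≤ 2 ^ 2 ^ l₀ ∧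
      (∀ s : ℤ, G.eval ((((G.coeff 0).natAbs * Q : ℕ) : ℤ) * s) = G.coeff 0 * F.eval s) ∧
      ∀ p : ℕ, p.Prime → p ≤ 2 ^ 2 ^ l₀ → ∀ s : ℤ, ¬ (p : ℤ) ∣ F.eval s := by
  set κ := G.natDegree with hκ
  set l₀ := 2 * κ + 1 with hl
  set Q := primorial (2 ^ 2 ^ l₀) with hQ
  set g₀ := G.coeff 0 with hg
  set ε : ℤ := Int.sign g₀ with hε
  have hεg : g₀ * ε = (g₀.natAbs : ℤ) := by
    rw [hε, mul_comm, Int.sign_mul_self_eq_natAbs]
  set c : ℤ := ((g₀.natAbs * Q : ℕ) : ℤ) with hc
  set F : ℤ[X] := 1 + C (ε * Q) * X * (G.divX).comp (C c * X) with hFdef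
  have hev : ∀ s : ℤ, F.eval s = 1 + ε * Q * s * (G.divX).eval (c * s) := by
    intro s
    simp [hFdef, Polynomial.eval_comp]
  have hpow : 2 * κ + 1 ≤ 2 ^ 2 ^ l₀ := by
    have h1 : l₀ < 2 ^ l₀ := Nat.lt_two_pow_self
    have h2 : 2 ^ l₀ < 2 ^ 2 ^ l₀ := Nat.lt_two_pow_self
    omega
  have hdeg : F.natDegree ≤ κ := by
    by_cases hκ0 : κ = 0
    · have h1 : G.divX = 0 := by
        rw [Polynomial.divX_eq_zero_iff]
        exact Polynomial.eq_C_of_natDegree_eq_zero hκ0
      rw [hFdef, h1]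
      simp
    · have h1 : (G.divX).natDegree = κ - 1 := Polynomial.natDegree_divX_eq_natDegree_tsub_one
      have h2 : ((G.divX).comp (C c * X)).natDegree ≤ κ - 1 := by
        refine (Polynomial.natDegree_comp_le).trans ?_
        rw [h1]
        calc (κ - 1) * (C c * X : ℤ[X]).natDegree ≤ (κ - 1) * 1 :=
              Nat.mul_le_mul_left _ (by simpa using Polynomial.natDegree_C_mul_X_pow_le c 1)
          _ = κ - 1 := mul_one _
      rw [hFdef]
      refine (Polynomial.natDegree_add_le _ _).trans ?_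
      refine max_le (by simp) ?_
      refine (Polynomial.natDegree_mul_le).trans ?_
      have h3 : (C (ε * Q) * X : ℤ[X]).natDegree ≤ 1 := by simpa using Polynomial.natDegree_C_mul_X_pow_le (ε * Q) 1
      omega
  refine ⟨l₀, Q, F, ?_, ?_, ?_, ?_, ?_⟩
  · exact primorial_pos _
  · have := hev 0
    rw [← Polynomial.coeff_zero_eq_eval_zero] at this
    rw [this]
    ring
  · exact le_trans (by omega) hpow
  · intro s
    rw [hev]
    have h1 : G.eval (c * s) = (G.divX * X + C g₀).eval (c * s) := by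
      rw [hg, Polynomial.divX_mul_X_add]
    rw [h1]
    simp only [Polynomial.eval_add, Polynomial.eval_mul, Polynomial.eval_X, Polynomial.eval_C]
    have h2 : c = g₀ * ε * Q := by
      rw [hεg, hc]
      push_cast
      ring
    have h3 : g₀ * (1 + ε * Q * s * (G.divX).eval (c * s)) =
        g₀ + (g₀ * ε * Q) * s * (G.divX).eval (c * s) := by ring
    rw [h3, ← h2]
    ring
  · intro p hp hpl s hdvd
    rw [hev] at hdvd
    have h1 : p ∣ Q := by
      rw [hQ, primorial]
      refine Finset.dvd_prod_of_mem (fun i => i) ?_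
      rw [Finset.mem_filter, Finset.mem_range]
      exact ⟨by omega, hp⟩
    have h2 : (p : ℤ) ∣ ε * Q * s * (G.divX).eval (c * s) := by
      have h3 : (p : ℤ) ∣ (Q : ℤ) := by exact_mod_cast h1
      exact Dvd.dvd.mul_right (Dvd.dvd.mul_right (Dvd.dvd.mul_left h3 _) _) _
    have h3 : (p : ℤ) ∣ 1 := (Int.dvd_add_left h2).mp hdvd
    have h4 : p ∣ 1 := by exact_mod_cast h3
    exact hp.one_lt.ne' (Nat.dvd_one.mp h4)

end Pool.Agent.SievePar
end

section

/-! # Equidistribution of a finite number of residue conditions -/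

set_option autoImplicit false

open Finset

namespace Pool.Agent.SievePar

/-- TASK A1a. `x ↦ (r + q * x) % p` is a bijection of `range p` when the prime `q ≠ p` (`q` is
invertible modulo `p`), so the preimage of `S ⊆ range p` in `range p` has `S.card` elements.
PROOF. `Finset.card_bij` / `Finset.card_nbij'`: injective on `range p`
(`Nat.ModEq.cancel_left_of_coprime` after cancelling `r`), hence bijective on the finite set
`range p` (`Finset.surjOn_of_injOn_of_card_le` or `Finset.exists_preimage...`); or transport the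
statement to `ZMod p`, where the map is `fun x => r + q * x`, an `Equiv`. -/
theorem card_affine {p q r : ℕ} (hp : p.Prime) (hq : q.Prime) (hpq : p ≠ q) {A : Finset ℕ}
    (hA : A ⊆ range p) :
    ((range p).filter fun x => (r + q * x) % p ∈ A).card = A.card := by
  classical
  have hcop : Nat.Coprime p q := (Nat.coprime_primes hp hq).mpr hpq
  have hinj : Set.InjOn (fun x => (r + q * x) % p) (range p : Set ℕ) := by
    intro x hx y hy hxy
    have h1 : r + q * x ≡ r + q * y [MOD p] := hxy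
    have h2 : q * x ≡ q * y [MOD p] := Nat.ModEq.add_left_cancel' r h1
    have h3 : x ≡ y [MOD p] := Nat.ModEq.cancel_left_of_coprime hcop h2
    have hx' : x < p := by simpa using hx
    have hy' : y < p := by simpa using hy
    have h4 : x % p = y % p := h3
    rwa [Nat.mod_eq_of_lt hx', Nat.mod_eq_of_lt hy'] at h4
  have himg : (range p).image (fun x => (r + q * x) % p) = range p := by
    refine Finset.eq_of_subset_of_card_le ?_ ?_
    · intro a ha
      obtain ⟨x, _, rfl⟩ := Finset.mem_image.mp ha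
      exact Finset.mem_range.mpr (Nat.mod_lt _ hp.pos)
    · rw [Finset.card_image_of_injOn hinj]
  rw [← Finset.card_image_of_injOn (s := (range p).filter fun x => (r + q * x) % p ∈ A)
    (f := fun x => (r + q * x) % p)
    (hinj.mono (by intro x hx; exact Finset.mem_of_mem_filter x hx))]
  congr 1
  ext a
  constructor
  · intro ha
    obtain ⟨x, hx, rfl⟩ := Finset.mem_image.mp ha
    exact (Finset.mem_filter.mp hx).2
  · intro ha
    have h1 : a ∈ (range p).image (fun x => (r + q * x) % p) := by rw [himg]; exact hA ha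
    obtain ⟨x, hx, hxa⟩ := Finset.mem_image.mp h1
    exact Finset.mem_image.mpr ⟨x, Finset.mem_filter.mpr ⟨hx, by rw [hxa]; exact ha⟩, hxa⟩

private theorem A1_fibre {F : Finset ℕ} (hF : ∀ p ∈ F, p.Prime) (S : ℕ → Finset ℕ) {q r : ℕ}
    (hr : r < q) (y : ℕ) :
    ((range y).filter fun s => s % q = r ∧ ∀ p ∈ F, s % p ∈ S p).card =
      cnt (fun p => (range p).filter fun x => (r + q * x) % p ∈ S p) F ((y - r + q - 1) / q) := by
  classical
  unfold cnt
  have hq0 : 0 < q := by omega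
  symm
  refine Finset.card_bij (fun x _ => r + q * x) ?_ ?_ ?_
  · intro x hx
    rw [Finset.mem_filter, Finset.mem_range] at hx
    rw [Finset.mem_filter, Finset.mem_range]
    refine ⟨?_, ?_, ?_⟩
    · have h1 := (Nat.lt_div_iff_mul_lt hq0).mp hx.1
      have h2 : q * x < y - r := by
        have : x * q = q * x := mul_comm _ _
        omega
      omega
    · rw [Nat.add_mul_mod_self_left, Nat.mod_eq_of_lt hr]
    · intro p hp
      have h1 := (Finset.mem_filter.mp (hx.2 p hp)).2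
      have h2 : (r + q * (x % p)) % p = (r + q * x) % p := by
        rw [Nat.add_mod, Nat.mul_mod, Nat.mod_mod, ← Nat.mul_mod, ← Nat.add_mod]
      rwa [h2] at h1
  · intro x _ z _ hxz
    have : q * x = q * z := by simpa using hxz
    exact Nat.eq_of_mul_eq_mul_left hq0 this
  · intro s hs
    rw [Finset.mem_filter, Finset.mem_range] at hs
    obtain ⟨hsy, hsr, hsF⟩ := hs
    have h0 : r + q * (s / q) = s := by rw [← hsr]; exact Nat.mod_add_div s q
    refine ⟨s / q, ?_, h0⟩
    rw [Finset.mem_filter, Finset.mem_range]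
    refine ⟨?_, ?_⟩
    · rw [Nat.lt_div_iff_mul_lt hq0]
      have : s / q * q = q * (s / q) := mul_comm _ _
      omega
    · intro p hp
      rw [Finset.mem_filter, Finset.mem_range]
      refine ⟨Nat.mod_lt _ (hF p hp).pos, ?_⟩
      have h2 : (r + q * (s / q % p)) % p = (r + q * (s / q)) % p := by
        rw [Nat.add_mod, Nat.mul_mod, Nat.mod_mod, ← Nat.mul_mod, ← Nat.add_mod]
      rw [h2, h0]
      exact hsF p hp

/-- TASK A1b. PROOF. Induction on `F` (`Finset.induction_on`), for all `S`, `y`. `F = ∅`: `cnt = y`.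
`insert q F`, `q ∉ F`: split according to `r = s % q ∈ S q`. For fixed `r < q` the numbers `s < y`
with `s % q = r` are `s = r + q * x` with `x < y'`, `y' = (y - r + q - 1) / q` (natural
subtraction); and for `p ∈ F` the condition `(r + q * x) % p ∈ S p` says
`x % p ∈ S' p`, `S' p = (range p).filter fun x => (r + q * x) % p ∈ S p`, which has the same
cardinality as `S p` by `card_affine`. So the number is `cnt S' F y'`, and by induction it is
`y' * ∏ p ∈ F, wt S p` up to `∏ p ∈ F, 2 |S p|`. Since `|y' - y / q| ≤ 1` and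
`∏ p ∈ F, wt S p ≤ ∏ p ∈ F, 2 |S p|` (each `wt S p ≤ |S p| ≤ 2 |S p|`), each `r` has an error of at
most `2 * ∏ p ∈ F, 2 |S p|`; sum over the `|S q|` values of `r`. -/
theorem cnt_bound (F : Finset ℕ) (hF : ∀ p ∈ F, p.Prime) (S : ℕ → Finset ℕ)
    (hS : ∀ p ∈ F, S p ⊆ range p) (y : ℕ) :
    |(cnt S F y : ℝ) - y * ∏ p ∈ F, wt S p| ≤ ∏ p ∈ F, (2 * ((S p).card : ℝ)) := by
  classical
  induction F using Finset.induction_on generalizing S y with
  | empty =>
    unfold cnt
    simp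
  | insert q F hqF ih =>
    have hq : q.Prime := hF q (Finset.mem_insert_self q F)
    have hF' : ∀ p ∈ F, p.Prime := fun p hp => hF p (Finset.mem_insert_of_mem hp)
    have hS' : ∀ p ∈ F, S p ⊆ range p := fun p hp => hS p (Finset.mem_insert_of_mem hp)
    have hSq : S q ⊆ range q := hS q (Finset.mem_insert_self q F)
    have hq0 : (0 : ℝ) < q := by exact_mod_cast hq.pos
    set W : ℝ := ∏ p ∈ F, wt S p with hW
    set B : ℝ := ∏ p ∈ F, (2 * ((S p).card : ℝ)) with hB
    have hW0 : 0 ≤ W := Finset.prod_nonneg fun p _ => wt_nonneg S p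
    have hWB : W ≤ B := by
      refine Finset.prod_le_prod (fun p _ => wt_nonneg S p) fun p hp => ?_
      unfold wt
      have h1 : (1 : ℝ) ≤ p := by exact_mod_cast (hF' p hp).one_le
      have h2 : (0 : ℝ) ≤ ((S p).card : ℝ) := Nat.cast_nonneg _
      calc ((S p).card : ℝ) / p ≤ (S p).card := div_le_self h2 h1
        _ ≤ 2 * ((S p).card : ℝ) := by linarith
    -- the decomposition according to the residue modulo `q`
    have hdec : cnt S (insert q F) y =
        ∑ r ∈ S q, ((range y).filter fun s => s % q = r ∧ ∀ p ∈ F, s % p ∈ S p).card := by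
      unfold cnt
      rw [← Finset.card_biUnion]
      · congr 1
        ext s
        simp only [Finset.mem_filter, Finset.mem_range, Finset.mem_biUnion, Finset.mem_insert,
          forall_eq_or_imp]
        constructor
        · rintro ⟨h1, h2, h3⟩
          exact ⟨s % q, h2, h1, rfl, h3⟩
        · rintro ⟨r, hr, h1, h2, h3⟩
          exact ⟨h1, by rw [h2]; exact hr, h3⟩
      · intro r _ r' _ hrr
        rw [Function.onFun, Finset.disjoint_left]
        intro s hs hs'
        exact hrr ((Finset.mem_filter.mp hs).2.1.symm.trans (Finset.mem_filter.mp hs').2.1)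
    have hone : ∀ r ∈ S q,
        |((((range y).filter fun s => s % q = r ∧ ∀ p ∈ F, s % p ∈ S p).card : ℕ) : ℝ) -
          y / q * W| ≤ 2 * B := by
      intro r hr
      have hrq : r < q := Finset.mem_range.mp (hSq hr)
      rw [A1_fibre hF' S hrq y]
      set y' : ℕ := (y - r + q - 1) / q with hy'
      have h1 := ih hF' (fun p => (range p).filter fun x => (r + q * x) % p ∈ S p)
        (fun p _ => Finset.filter_subset _ _) y'
      have hcard : ∀ p ∈ F, ((range p).filter fun x => (r + q * x) % p ∈ S p).card = (S p).card :=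
        fun p hp => card_affine (hF' p hp) hq (fun h => hqF (h ▸ hp)) (hS' p hp)
      have h2 : ∏ p ∈ F, wt (fun p => (range p).filter fun x => (r + q * x) % p ∈ S p) p = W := by
        refine Finset.prod_congr rfl fun p hp => ?_
        unfold wt
        rw [hcard p hp]
      have h3 : ∏ p ∈ F, (2 * ((((range p).filter fun x => (r + q * x) % p ∈ S p).card : ℕ) : ℝ)) =
          B := Finset.prod_congr rfl fun p hp => by rw [hcard p hp]
      rw [h2, h3] at h1
      have h4 : |(y' : ℝ) - y / q| ≤ 1 := by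
        have ha : q * y' ≤ y - r + q - 1 := Nat.mul_div_le _ _
        have hb : y - r + q - 1 < q * (y' + 1) := Nat.lt_mul_div_succ _ hq.pos
        have ha' : q * y' ≤ y + q := by omega
        have hb' : y ≤ q * y' + q := by
          have : q * (y' + 1) = q * y' + q := by ring
          omega
        have ha2 : (q : ℝ) * y' ≤ y + q := by exact_mod_cast ha'
        have hb2 : (y : ℝ) ≤ q * y' + q := by exact_mod_cast hb'
        rw [abs_le]
        have h5 : (y : ℝ) / q ≤ y' + 1 := by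
          rw [div_le_iff₀ hq0]; linarith
        have h6 : (y' : ℝ) ≤ y / q + 1 := by
          rw [← sub_le_iff_le_add, le_div_iff₀ hq0]; linarith
        constructor <;> linarith
      set c : ℝ := ((cnt (fun p => (range p).filter fun x => (r + q * x) % p ∈ S p) F y' : ℕ) : ℝ)
        with hc
      calc |c - y / q * W| = |(c - y' * W) + (y' - y / q) * W| := by ring_nf
        _ ≤ |c - y' * W| + |((y' : ℝ) - y / q) * W| := abs_add_le _ _
        _ ≤ B + 1 * W := by
            rw [abs_mul, abs_of_nonneg hW0]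
            exact add_le_add h1 (mul_le_mul_of_nonneg_right h4 hW0)
        _ ≤ 2 * B := by linarith
    rw [Finset.prod_insert hqF, Finset.prod_insert hqF, hdec]
    have hwq : wt S q = ((S q).card : ℝ) / q := rfl
    rw [hwq]
    have h5 : ((∑ r ∈ S q, ((range y).filter fun s => s % q = r ∧ ∀ p ∈ F, s % p ∈ S p).card : ℕ) :
        ℝ) - y * (((S q).card : ℝ) / q * W) = ∑ r ∈ S q,
        (((((range y).filter fun s => s % q = r ∧ ∀ p ∈ F, s % p ∈ S p).card : ℕ) : ℝ) -
          y / q * W) := by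
      rw [Finset.sum_sub_distrib, Finset.sum_const, nsmul_eq_mul, Nat.cast_sum]
      ring
    rw [h5]
    calc |∑ r ∈ S q,
          (((((range y).filter fun s => s % q = r ∧ ∀ p ∈ F, s % p ∈ S p).card : ℕ) : ℝ) -
            y / q * W)| ≤ ∑ r ∈ S q,
          |(((((range y).filter fun s => s % q = r ∧ ∀ p ∈ F, s % p ∈ S p).card : ℕ) : ℝ) -
            y / q * W)| := Finset.abs_sum_le_sum_abs _ _
      _ ≤ ∑ _r ∈ S q, 2 * B := Finset.sum_le_sum hone
      _ = 2 * ((S q).card : ℝ) * B := by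
          rw [Finset.sum_const, nsmul_eq_mul]
          ring

end Pool.Agent.SievePar
end

section

/-! # Products of sums over the blocks -/

set_option autoImplicit false

open Finset

namespace Pool.Agent.SievePar

private theorem A2_ind {R : ℕ} (S : ℕ → Finset ℕ) (φ : Fin R → Finset ℕ) (s : ℕ) :
    ∏ j, ind S (φ j) s = ind S (univ.biUnion φ) s := by
  classical
  by_cases h : ∀ p ∈ univ.biUnion φ, s % p ∈ S p
  · rw [ind, if_pos h]
    refine Finset.prod_eq_one fun j _ => ?_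
    rw [ind, if_pos]
    intro p hp
    exact h p (Finset.mem_biUnion.mpr ⟨j, Finset.mem_univ j, hp⟩)
  · rw [ind, if_neg h]
    push Not at h
    obtain ⟨p, hp, hs⟩ := h
    obtain ⟨j, _, hj⟩ := Finset.mem_biUnion.mp hp
    refine Finset.prod_eq_zero (Finset.mem_univ j) ?_
    rw [ind, if_neg]
    intro h
    exact hs (h p hj)

private theorem A2_sum (S : ℕ → Finset ℕ) (F : Finset ℕ) (y : ℕ) :
    ∑ s ∈ range y, ind S F s = (cnt S F y : ℝ) := by
  unfold ind cnt
  rw [Finset.sum_boole]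

/-- TASK A2. PROOF. `Finset.prod_univ_sum` (both products of sums become sums over
`φ ∈ Fintype.piFinset 𝒟` of products over `j`). For `φ` put `F = univ.biUnion φ`: the product of the
indicators `ind S (φ j) s` is `ind S F s` and `∑ s ∈ range y, ind S F s = cnt S F y`
(`Finset.card_filter`, casts); `∏ j, ∏ p ∈ φ j, g p = ∏ p ∈ F, g p` by `Finset.prod_biUnion`
(the `φ j ⊆ P j` are pairwise disjoint). So the difference is
`∑ φ, (∏ j, W j (φ j)) * (cnt S F y - y * ∏ p ∈ F, wt S p)`; `Finset.abs_sum_le_sum_abs`, `cnt_bound`,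
and `Finset.prod_univ_sum` backwards. -/
theorem block_bound {R : ℕ} (P : Fin R → Finset ℕ) (hP : ∀ j, ∀ p ∈ P j, p.Prime)
    (hdis : ∀ i j, i ≠ j → Disjoint (P i) (P j)) (S : ℕ → Finset ℕ)
    (hS : ∀ p, S p ⊆ range p) (𝒟 : Fin R → Finset (Finset ℕ)) (h𝒟 : ∀ j, ∀ D ∈ 𝒟 j, D ⊆ P j)
    (W : Fin R → Finset ℕ → ℝ) (y : ℕ) :
    |∑ s ∈ range y, ∏ j, ∑ D ∈ 𝒟 j, W j D * ind S D s -
        y * ∏ j, ∑ D ∈ 𝒟 j, W j D * ∏ p ∈ D, wt S p| ≤
      ∏ j, ∑ D ∈ 𝒟 j, |W j D| * ∏ p ∈ D, (2 * ((S p).card : ℝ)) := by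
  classical
  have hd : ∀ φ ∈ Fintype.piFinset 𝒟, (↑(univ : Finset (Fin R)) : Set (Fin R)).PairwiseDisjoint
      φ := by
    intro φ hφ i _ j _ hij
    rw [Fintype.mem_piFinset] at hφ
    exact Finset.disjoint_of_subset_left (h𝒟 i _ (hφ i))
      (Finset.disjoint_of_subset_right (h𝒟 j _ (hφ j)) (hdis i j hij))
  have hprod : ∀ φ ∈ Fintype.piFinset 𝒟, ∀ w : ℕ → ℝ,
      ∏ j, ∏ p ∈ φ j, w p = ∏ p ∈ univ.biUnion φ, w p := fun φ hφ w =>
    (Finset.prod_biUnion (hd φ hφ)).symm
  have e1 : ∑ s ∈ range y, ∏ j, ∑ D ∈ 𝒟 j, W j D * ind S D s =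
      ∑ φ ∈ Fintype.piFinset 𝒟, (∏ j, W j (φ j)) * (cnt S (univ.biUnion φ) y : ℝ) := by
    have h1 : ∀ s ∈ range y, ∏ j, ∑ D ∈ 𝒟 j, W j D * ind S D s =
        ∑ φ ∈ Fintype.piFinset 𝒟, (∏ j, W j (φ j)) * ind S (univ.biUnion φ) s := by
      intro s _
      rw [Finset.prod_univ_sum]
      refine Finset.sum_congr rfl fun φ _ => ?_
      rw [Finset.prod_mul_distrib, A2_ind]
    rw [Finset.sum_congr rfl h1, Finset.sum_comm]
    refine Finset.sum_congr rfl fun φ _ => ?_
    rw [← Finset.mul_sum, A2_sum]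
  have e2 : (y : ℝ) * ∏ j, ∑ D ∈ 𝒟 j, W j D * ∏ p ∈ D, wt S p =
      ∑ φ ∈ Fintype.piFinset 𝒟, (∏ j, W j (φ j)) * (y * ∏ p ∈ univ.biUnion φ, wt S p) := by
    rw [Finset.prod_univ_sum, Finset.mul_sum]
    refine Finset.sum_congr rfl fun φ hφ => ?_
    rw [Finset.prod_mul_distrib, hprod φ hφ]
    ring
  have e3 : ∏ j, ∑ D ∈ 𝒟 j, |W j D| * ∏ p ∈ D, (2 * ((S p).card : ℝ)) =
      ∑ φ ∈ Fintype.piFinset 𝒟, (∏ j, |W j (φ j)|) *
        ∏ p ∈ univ.biUnion φ, (2 * ((S p).card : ℝ)) := by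
    rw [Finset.prod_univ_sum]
    refine Finset.sum_congr rfl fun φ hφ => ?_
    rw [Finset.prod_mul_distrib, hprod φ hφ]
  rw [e1, e2, e3, ← Finset.sum_sub_distrib]
  refine (Finset.abs_sum_le_sum_abs _ _).trans (Finset.sum_le_sum fun φ hφ => ?_)
  rw [← mul_sub, abs_mul, Finset.abs_prod]
  refine mul_le_mul_of_nonneg_left ?_ (Finset.prod_nonneg fun j _ => abs_nonneg _)
  refine cnt_bound _ (fun p hp => ?_) S (fun p _ => hS p) y
  obtain ⟨j, _, hj⟩ := Finset.mem_biUnion.mp hp
  exact hP j p (h𝒟 j _ (Fintype.mem_piFinset.mp hφ j) hj)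

end Pool.Agent.SievePar
end

section

/-! # Bonferroni inequalities with weights -/

set_option autoImplicit false

open Finset

namespace Pool.Agent.SievePar

private theorem A3_img {P : Finset ℕ} {q : ℕ} (hq : q ∉ P) (b : ℕ) :
    (insert q P).powerset.filter (fun D => D.card ≤ b + 1) =
      P.powerset.filter (fun D => D.card ≤ b + 1) ∪
        (P.powerset.filter (fun D => D.card ≤ b)).image (insert q) := by
  rw [Finset.powerset_insert, Finset.filter_union]
  congr 1
  ext D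
  simp only [Finset.mem_filter, Finset.mem_image, Finset.mem_powerset]
  constructor
  · rintro ⟨⟨E, hE, rfl⟩, hc⟩
    refine ⟨E, ⟨hE, ?_⟩, rfl⟩
    rw [Finset.card_insert_of_notMem (fun h => hq (hE h))] at hc
    omega
  · rintro ⟨E, ⟨hE, hc⟩, rfl⟩
    refine ⟨⟨E, hE, rfl⟩, ?_⟩
    rw [Finset.card_insert_of_notMem (fun h => hq (hE h))]
    omega

/-- TASK A3a. PROOF. The subsets of `insert q P` with at most `b + 1` elements are those of `P`, and
`insert q D` with `D ⊆ P`, `D.card ≤ b` (`Finset.powerset_insert`, `Finset.filter_union`,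
`Finset.sum_image`). -/
theorem TT_insert {P : Finset ℕ} {q : ℕ} (hq : q ∉ P) (b : ℕ) (w : ℕ → ℝ) :
    TT (insert q P) (b + 1) w = TT P (b + 1) w - w q * TT P b w := by
  unfold TT
  rw [A3_img hq, Finset.sum_union, Finset.sum_image]
  · rw [sub_eq_add_neg, Finset.mul_sum, ← Finset.sum_neg_distrib]
    congr 1
    refine Finset.sum_congr rfl fun D hD => ?_
    have hqD : q ∉ D := fun h => hq (Finset.mem_powerset.1 (Finset.mem_filter.1 hD).1 h)
    rw [Finset.card_insert_of_notMem hqD, Finset.prod_insert hqD, pow_succ]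
    ring
  · intro D hD E hE h
    have hqD : q ∉ D := fun h => hq (Finset.mem_powerset.1 (Finset.mem_filter.1 hD).1 h)
    have hqE : q ∉ E := fun h => hq (Finset.mem_powerset.1 (Finset.mem_filter.1 hE).1 h)
    rw [← Finset.erase_insert hqD, ← Finset.erase_insert hqE]
    exact congrArg (fun X => Finset.erase X q) h
  · rw [Finset.disjoint_left]
    intro D hD hD'
    obtain ⟨E, -, rfl⟩ := Finset.mem_image.1 hD'
    exact hq (Finset.mem_powerset.1 (Finset.mem_filter.1 hD).1 (Finset.mem_insert_self q E))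

/-- `TT P 0 w = 1`. -/
theorem TT_zero (P : Finset ℕ) (w : ℕ → ℝ) : TT P 0 w = 1 := by
  unfold TT
  have h : P.powerset.filter (fun D => D.card ≤ 0) = {∅} := by
    ext D
    simp only [Finset.mem_filter, Finset.mem_powerset, Finset.mem_singleton, Nat.le_zero,
      Finset.card_eq_zero]
    constructor
    · exact fun h => h.2
    · rintro rfl
      exact ⟨Finset.empty_subset _, rfl⟩
  rw [h, Finset.sum_singleton]
  simp

/-- TASK A3b. PROOF. Induction on `P`, all levels simultaneously (`Finset.induction_on`, statement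
`∀ b, (Even b → ∏ (1 - w) ≤ TT P b w) ∧ (Odd b → TT P b w ≤ ∏ (1 - w))`), with `TT_insert`, `TT_zero`,
`Finset.prod_insert`: `TT P (b + 1) w - w q * TT P b w` and
`(1 - w q) * ∏ = ∏ - w q * ∏`. For `P = ∅`: `TT = 1`. Level `0`: the product is `≤ 1`
(`Finset.prod_le_one`). -/
theorem bonferroni {P : Finset ℕ} {w : ℕ → ℝ} (hw0 : ∀ p ∈ P, 0 ≤ w p)
    (hw1 : ∀ p ∈ P, w p ≤ 1) (b : ℕ) :
    (Even b → ∏ p ∈ P, (1 - w p) ≤ TT P b w) ∧ (Odd b → TT P b w ≤ ∏ p ∈ P, (1 - w p)) := by
  induction P using Finset.induction_on generalizing b with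
  | empty =>
    have h : TT ∅ b w = 1 := by
      unfold TT
      rw [Finset.powerset_empty, Finset.filter_singleton, if_pos (by simp), Finset.sum_singleton]
      simp
    rw [h]
    simp
  | insert q P hq ih =>
    have hw0' : ∀ p ∈ P, 0 ≤ w p := fun p hp => hw0 p (Finset.mem_insert_of_mem hp)
    have hw1' : ∀ p ∈ P, w p ≤ 1 := fun p hp => hw1 p (Finset.mem_insert_of_mem hp)
    have hq0 : 0 ≤ w q := hw0 q (Finset.mem_insert_self _ _)
    cases b with
    | zero =>
      refine ⟨fun _ => ?_, fun h => absurd h (by decide)⟩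
      rw [TT_zero]
      refine Finset.prod_le_one (fun p hp => ?_) (fun p hp => ?_)
      · linarith [hw1 p hp]
      · linarith [hw0 p hp]
    | succ b =>
      rw [TT_insert hq, Finset.prod_insert hq]
      have ih1 := ih hw0' hw1' (b + 1)
      have ih2 := ih hw0' hw1' b
      constructor
      · intro he
        have ho : Odd b := by
          rcases Nat.even_or_odd b with h | h
          · exact absurd he (by rw [Nat.even_add_one]; exact not_not.2 h)
          · exact h
        have h1 := ih1.1 he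
        have h2 := mul_le_mul_of_nonneg_left (ih2.2 ho) hq0
        linarith
      · intro ho
        have he : Even b := by
          rcases Nat.even_or_odd b with h | h
          · exact h
          · exfalso
            have h3 : Even (b + 1) := h.add_one
            exact (Nat.not_even_iff_odd.2 ho) h3
        have h1 := ih1.2 ho
        have h2 := mul_le_mul_of_nonneg_left (ih2.1 he) hq0
        linarith

/-- TASK A3c. PROOF. `TT P (2 m + 1) w = TT P (2 m) w - EE P (2 m + 1) w` (split the filter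
`card ≤ 2 m + 1` into `card ≤ 2 m` and `card = 2 m + 1`; `Finset.powersetCard_eq_filter` or
`Finset.mem_powersetCard`), and `bonferroni` for the odd level. -/
theorem TT_sub_le {P : Finset ℕ} {w : ℕ → ℝ} (hw0 : ∀ p ∈ P, 0 ≤ w p)
    (hw1 : ∀ p ∈ P, w p ≤ 1) (m : ℕ) :
    TT P (2 * m) w - ∏ p ∈ P, (1 - w p) ≤ EE P (2 * m + 1) w := by
  have h1 := (bonferroni hw0 hw1 (2 * m + 1)).2 ⟨m, rfl⟩
  have h2 : TT P (2 * m + 1) w = TT P (2 * m) w - EE P (2 * m + 1) w := by
    unfold TT EE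
    have h3 : P.powerset.filter (fun D => D.card ≤ 2 * m + 1) =
        P.powerset.filter (fun D => D.card ≤ 2 * m) ∪ P.powersetCard (2 * m + 1) := by
      ext D
      simp only [Finset.mem_filter, Finset.mem_union, Finset.mem_powerset,
        Finset.mem_powersetCard]
      constructor
      · rintro ⟨h4, h5⟩
        rcases Nat.lt_or_ge D.card (2 * m + 1) with h6 | h6
        · exact Or.inl ⟨h4, by omega⟩
        · exact Or.inr ⟨h4, by omega⟩
      · rintro (⟨h4, h5⟩ | ⟨h4, h5⟩)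
        · exact ⟨h4, by omega⟩
        · exact ⟨h4, by omega⟩
    rw [h3, Finset.sum_union, sub_eq_add_neg, ← Finset.sum_neg_distrib]
    · congr 1
      refine Finset.sum_congr rfl fun D hD => ?_
      rw [(Finset.mem_powersetCard.1 hD).2, pow_succ, pow_mul]
      simp
    · rw [Finset.disjoint_left]
      intro D hD hD'
      have h4 := (Finset.mem_filter.1 hD).2
      have h5 := (Finset.mem_powersetCard.1 hD').2
      omega
  linarith

end Pool.Agent.SievePar
end

section

/-! # Elementary inequalities -/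

set_option autoImplicit false

open Finset

namespace Pool.Agent.SievePar

/-- TASK A4a (Hooley). PROOF. Induction on `s`: for `insert a s`,
`Y a * ∏ Y - X a * ∏ X = (Y a - X a) * ∏ Y + X a * (∏ Y - ∏ X)`, and `X a ≤ Y a`,
`∏ X ≤ ∏ Y` (`Finset.prod_le_prod`). The sum on the right for `insert a s`: the term `l = a` is
`(Y a - X a) * ∏ s Y` (`Finset.erase_insert`), the terms `l ∈ s` are `Y a` times the old ones
(`Finset.erase_insert_of_ne`, `Finset.prod_insert`). -/
theorem hooley {ι : Type*} [DecidableEq ι] (s : Finset ι) {X Y : ι → ℝ}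
    (hX : ∀ i ∈ s, 0 ≤ X i) (hXY : ∀ i ∈ s, X i ≤ Y i) :
    ∏ i ∈ s, Y i - ∏ i ∈ s, X i ≤ ∑ l ∈ s, (Y l - X l) * ∏ i ∈ s.erase l, Y i := by
  induction s using Finset.induction_on with
  | empty => simp
  | insert a s ha ih =>
    have hXs : ∀ i ∈ s, 0 ≤ X i := fun i hi => hX i (Finset.mem_insert_of_mem hi)
    have hXYs : ∀ i ∈ s, X i ≤ Y i := fun i hi => hXY i (Finset.mem_insert_of_mem hi)
    have h1 := ih hXs hXYs
    have hXa : 0 ≤ X a := hX a (Finset.mem_insert_self a s)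
    have hXYa : X a ≤ Y a := hXY a (Finset.mem_insert_self a s)
    have h2 : ∏ i ∈ s, X i ≤ ∏ i ∈ s, Y i := Finset.prod_le_prod hXs hXYs
    have h3 : ∑ l ∈ s, (Y l - X l) * ∏ i ∈ (insert a s).erase l, Y i
        = Y a * ∑ l ∈ s, (Y l - X l) * ∏ i ∈ s.erase l, Y i := by
      rw [Finset.mul_sum]
      refine Finset.sum_congr rfl (fun l hl => ?_)
      have hne : a ≠ l := fun h => ha (h ▸ hl)
      rw [Finset.erase_insert_of_ne hne, Finset.prod_insert
        (fun h => ha (Finset.mem_of_mem_erase h))]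
      ring
    rw [Finset.prod_insert ha, Finset.prod_insert ha, Finset.sum_insert ha,
      Finset.erase_insert ha, h3]
    have h4 : X a * (∏ i ∈ s, Y i - ∏ i ∈ s, X i) ≤ Y a * (∏ i ∈ s, Y i - ∏ i ∈ s, X i) :=
      mul_le_mul_of_nonneg_right hXYa (sub_nonneg.mpr h2)
    have h5 : Y a * (∏ i ∈ s, Y i - ∏ i ∈ s, X i)
        ≤ Y a * ∑ l ∈ s, (Y l - X l) * ∏ i ∈ s.erase l, Y i :=
      mul_le_mul_of_nonneg_left h1 (hXa.trans hXYa)
    nlinarith [h4, h5]

/-- TASK A4b. PROOF. `2 ^ m * EE P m w ≤ ∑ D ∈ P.powerset, ∏ p ∈ D, (2 * w p) = ∏ p ∈ P, (1 + 2 * w p)`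
(`Finset.prod_one_add` or `Finset.prod_add`), and `1 + x ≤ exp x`, `Real.exp_sum`. -/
theorem EE_le {P : Finset ℕ} {w : ℕ → ℝ} (hw0 : ∀ p ∈ P, 0 ≤ w p) (m : ℕ) :
    EE P m w ≤ Real.exp (2 * ∑ p ∈ P, w p) / 2 ^ m := by
  have h2 : (0 : ℝ) < 2 ^ m := by positivity
  rw [le_div_iff₀ h2, EE, Finset.sum_mul]
  have h3 : ∀ D ∈ P.powersetCard m, (∏ p ∈ D, w p) * 2 ^ m = ∏ p ∈ D, (2 * w p) := by
    intro D hD
    rw [Finset.prod_mul_distrib, Finset.prod_const, (Finset.mem_powersetCard.mp hD).2]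
    ring
  rw [Finset.sum_congr rfl h3]
  have h4 : ∑ D ∈ P.powersetCard m, ∏ p ∈ D, (2 * w p)
      ≤ ∑ D ∈ P.powerset, ∏ p ∈ D, (2 * w p) := by
    refine Finset.sum_le_sum_of_subset_of_nonneg ?_ ?_
    · intro D hD
      exact Finset.mem_powerset.mpr (Finset.mem_powersetCard.mp hD).1
    · intro D hD _
      refine Finset.prod_nonneg (fun p hp => ?_)
      have := hw0 p (Finset.mem_powerset.mp hD hp)
      linarith
  refine h4.trans ?_
  rw [← Finset.prod_one_add, Finset.mul_sum, Real.exp_sum]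
  refine Finset.prod_le_prod (fun p hp => ?_) (fun p _ => ?_)
  · have := hw0 p hp
    linarith
  · have := Real.add_one_le_exp (2 * w p)
    linarith

/-- TASK A4c. PROOF. `1 - x ≥ exp (-2 x)` for `0 ≤ x ≤ 1 / 2`: `(1 - x) * exp (2 x) ≥
(1 - x) * (1 + 2 x) = 1 + x - 2 x ^ 2 ≥ 1`. Then `Finset.prod_le_prod`, `Real.exp_sum`. -/
theorem exp_le_prod {P : Finset ℕ} {w : ℕ → ℝ} (hw0 : ∀ p ∈ P, 0 ≤ w p)
    (hw1 : ∀ p ∈ P, w p ≤ 1 / 2) :
    Real.exp (-(2 * ∑ p ∈ P, w p)) ≤ ∏ p ∈ P, (1 - w p) := by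
  rw [Finset.mul_sum, ← Finset.sum_neg_distrib, Real.exp_sum]
  refine Finset.prod_le_prod (fun p _ => (Real.exp_pos _).le) (fun p hp => ?_)
  have h0 := hw0 p hp
  have h1 := hw1 p hp
  have h2 := Real.add_one_le_exp (2 * w p)
  have h3 : 0 < Real.exp (2 * w p) := Real.exp_pos _
  rw [Real.exp_neg, inv_le_iff_one_le_mul₀ h3]
  nlinarith [mul_nonneg h0 (sub_nonneg.mpr h1), mul_le_mul_of_nonneg_left h2 (by linarith : (0 : ℝ) ≤ 1 - w p)]

/-- TASK A4d. PROOF. Each term is at most `c ^ D.card`, so the sum is at most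
`∑ i ∈ range (b + 1), n.choose i * c ^ i` with `n = P.card` (`Finset.sum_powerset` type grouping by
cardinality, `Finset.card_powersetCard`), and `n.choose i * c ^ i ≤ (b.choose i) * (c * n) ^ i` for `i ≤ b`
(`Nat.choose_le_pow`, `1 ≤ b.choose i`); binomial theorem `add_pow` for `(c * n + 1) ^ b`. -/
theorem AA_le {S : ℕ → Finset ℕ} {P : Finset ℕ} {c : ℝ} (hc : 0 ≤ c)
    (hS : ∀ p ∈ P, 2 * ((S p).card : ℝ) ≤ c) (b : ℕ) :
    AA S P b ≤ (1 + c * P.card) ^ b := by
  classical
  set n := P.card with hn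
  have h1 : AA S P b ≤ ∑ D ∈ P.powerset.filter (fun D => D.card ≤ b), c ^ D.card := by
    refine Finset.sum_le_sum (fun D hD => ?_)
    have hDP := Finset.mem_powerset.mp (Finset.mem_filter.mp hD).1
    rw [← Finset.prod_const]
    exact Finset.prod_le_prod (fun p _ => by positivity) (fun p hp => hS p (hDP hp))
  have h2 : ∑ D ∈ P.powerset.filter (fun D => D.card ≤ b), c ^ D.card
      = ∑ i ∈ (range (n + 1)).filter (fun i => i ≤ b), (n.choose i : ℝ) * c ^ i := by
    rw [Finset.sum_filter, Finset.sum_filter]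
    have h3 := Finset.sum_powerset_apply_card (fun i => if i ≤ b then c ^ i else (0 : ℝ)) (x := P)
    rw [h3]
    refine Finset.sum_congr rfl (fun i _ => ?_)
    rw [nsmul_eq_mul]
    split_ifs <;> simp [hn]
  have h4 : ∑ i ∈ (range (n + 1)).filter (fun i => i ≤ b), (n.choose i : ℝ) * c ^ i
      ≤ ∑ i ∈ range (b + 1), (n.choose i : ℝ) * c ^ i := by
    refine Finset.sum_le_sum_of_subset_of_nonneg ?_ (fun i _ _ => by positivity)
    intro i hi
    have := (Finset.mem_filter.mp hi).2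
    exact Finset.mem_range.mpr (by omega)
  have h5 : ∑ i ∈ range (b + 1), (n.choose i : ℝ) * c ^ i
      ≤ ∑ i ∈ range (b + 1), (c * n) ^ i * 1 ^ (b - i) * (b.choose i : ℝ) := by
    refine Finset.sum_le_sum (fun i hi => ?_)
    have hib : i ≤ b := by
      have := Finset.mem_range.mp hi
      omega
    have h6 : (n.choose i : ℝ) ≤ (n : ℝ) ^ i := by exact_mod_cast Nat.choose_le_pow n i
    have h7 : (1 : ℝ) ≤ (b.choose i : ℝ) := by exact_mod_cast Nat.choose_pos hib
    have h8 : (0 : ℝ) ≤ (c * n) ^ i := by positivity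
    calc (n.choose i : ℝ) * c ^ i ≤ (n : ℝ) ^ i * c ^ i :=
          mul_le_mul_of_nonneg_right h6 (pow_nonneg hc i)
      _ = (c * n) ^ i * 1 := by rw [mul_pow]; ring
      _ ≤ (c * n) ^ i * (b.choose i : ℝ) := mul_le_mul_of_nonneg_left h7 h8
      _ = (c * n) ^ i * 1 ^ (b - i) * (b.choose i : ℝ) := by rw [one_pow, mul_one]
  rw [← add_pow] at h5
  calc AA S P b ≤ _ := h1
    _ = _ := h2
    _ ≤ _ := h4
    _ ≤ (c * n + 1) ^ b := h5
    _ = (1 + c * n) ^ b := by rw [add_comm]

end Pool.Agent.SievePar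
end

section

/-! # The levels of the sieve -/

set_option autoImplicit false

open Finset

namespace Pool.Agent.SievePar

/-- TASK A7a. PROOF. Let `f R` be the left side. `f 0 = 0` and, splitting off `j = 0` and shifting
(`Finset.sum_range_succ'`), `f (R + 1) = 4 * (2 * m + 2 * R + 1) + 2 * f R`. By induction
`f R + (8 * m + 12) + 8 * R = (8 * m + 12) * 2 ^ R`. -/
theorem sum_levels (m R : ℕ) :
    ∑ j ∈ range R, 2 ^ (j + 2) * (2 * (m + (R - 1 - j)) + 1) ≤ 2 ^ R * (8 * m + 12) := by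
  have key : ∀ R : ℕ, ∑ j ∈ range R, 2 ^ (j + 2) * (2 * (m + (R - 1 - j)) + 1)
      + (8 * m + 12) + 8 * R = (8 * m + 12) * 2 ^ R := by
    intro R
    induction R with
    | zero => simp
    | succ R ih =>
      rw [Finset.sum_range_succ']
      have h1 : ∑ j ∈ range R, 2 ^ (j + 1 + 2) * (2 * (m + (R + 1 - 1 - (j + 1))) + 1)
          = 2 * ∑ j ∈ range R, 2 ^ (j + 2) * (2 * (m + (R - 1 - j)) + 1) := by
        rw [Finset.mul_sum]
        refine Finset.sum_congr rfl fun j hj => ?_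
        have h2 : R + 1 - 1 - (j + 1) = R - 1 - j := by omega
        rw [h2]
        ring
      rw [h1]
      have h3 : R + 1 - 1 - 0 = R := by omega
      rw [h3, pow_succ 2 R]
      have h4 : (8 * m + 12) * (2 ^ R * 2) = 2 * ((8 * m + 12) * 2 ^ R) := by ring
      rw [h4, ← ih]
      ring
  have h := key R
  calc _ ≤ (8 * m + 12) * 2 ^ R := by omega
    _ = 2 ^ R * (8 * m + 12) := by ring

/-- TASK A7b. PROOF. `exp` of a linear function of `R` against `2 ^ 2 ^ R`; e.g.
`2 * (R + 2) * exp (8 * k * R) ≤ exp (16 * (k + 1) * R + 16)`, and `2 ^ 2 ^ R = exp (2 ^ R * log 2)`,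
`2 ^ R / R → ∞`. -/
theorem exists_level (k : ℕ) :
    ∃ R₀ : ℕ, ∀ R : ℕ, R₀ ≤ R → 2 * ((R : ℝ) + 2) * Real.exp (8 * k * R) ≤ 2 ^ 2 ^ R := by
  have t1 := tendsto_pow_const_div_const_pow_of_one_lt 1 (show (1 : ℝ) < 2 by norm_num)
  have t0 := tendsto_pow_const_div_const_pow_of_one_lt 0 (show (1 : ℝ) < 2 by norm_num)
  have t2 := (t1.const_mul ((8 : ℝ) * k + 1)).add (t0.const_mul (2 : ℝ))
  simp only [mul_zero, add_zero] at t2
  have hlog : (0 : ℝ) < Real.log 2 := Real.log_pos (by norm_num)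
  obtain ⟨R₀, hR₀⟩ := Filter.eventually_atTop.mp (t2.eventually (gt_mem_nhds hlog))
  refine ⟨R₀, fun R hR => ?_⟩
  have h1 := hR₀ R hR
  have hp : (0 : ℝ) < 2 ^ R := by positivity
  have h2 : ((8 : ℝ) * k + 1) * R + 2 ≤ 2 ^ R * Real.log 2 := by
    have h3 : (((8 : ℝ) * k + 1) * ((R : ℝ) ^ 1 / 2 ^ R) + 2 * ((R : ℝ) ^ 0 / 2 ^ R)) * 2 ^ R
        = ((8 : ℝ) * k + 1) * R + 2 := by
      field_simp
    have h4 := mul_le_mul_of_nonneg_right h1.le hp.le
    rw [h3] at h4
    linarith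
  have h5 : (2 : ℝ) * ((R : ℝ) + 2) ≤ Real.exp (R + 2) := by
    have h6 : (R : ℝ) + 2 ≤ Real.exp (R + 1) := by
      have := Real.add_one_le_exp ((R : ℝ) + 1)
      linarith
    have h7 : (2 : ℝ) ≤ Real.exp 1 := by
      have := Real.add_one_le_exp (1 : ℝ)
      linarith
    have h8 : Real.exp ((R : ℝ) + 2) = Real.exp 1 * Real.exp (R + 1) := by
      rw [← Real.exp_add]; ring_nf
    rw [h8]
    exact mul_le_mul h7 h6 (by positivity) (Real.exp_pos _).le
  calc 2 * ((R : ℝ) + 2) * Real.exp (8 * k * R)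
      ≤ Real.exp (R + 2) * Real.exp (8 * k * R) :=
        mul_le_mul_of_nonneg_right h5 (Real.exp_pos _).le
    _ = Real.exp (((8 : ℝ) * k + 1) * R + 2) := by rw [← Real.exp_add]; ring_nf
    _ ≤ Real.exp (2 ^ R * Real.log 2) := Real.exp_le_exp.mpr h2
    _ = 2 ^ 2 ^ R := by
      have h9 : (2 : ℝ) ^ R * Real.log 2 = Real.log 2 * ((2 ^ R : ℕ) : ℝ) := by
        push_cast; ring
      rw [h9, Real.exp_mul, Real.exp_log (by norm_num), Real.rpow_natCast]

end Pool.Agent.SievePar
end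

section

/-! # The reciprocals of the primes of a block -/

set_option autoImplicit false

open Finset

namespace Pool.Agent.SievePar

/-- TASK A5a. PROOF. The product of these primes is at most `primorial (2 ^ (i + 1)) ≤ 4 ^ 2 ^ (i + 1)`
(`primorial_le_four_pow`, name to be checked), each is `> 2 ^ i`:
`(2 ^ i) ^ card ≤ 4 ^ 2 ^ (i + 1) = 2 ^ 2 ^ (i + 2)`, so `i * card ≤ 2 ^ (i + 2)`. -/
theorem card_dyadic (i : ℕ) :
    i * ((Finset.Ioc (2 ^ i) (2 ^ (i + 1))).filter Nat.Prime).card ≤ 2 ^ (i + 2) := by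
  set T := (Finset.Ioc (2 ^ i) (2 ^ (i + 1))).filter Nat.Prime with hT
  have h1 : (2 ^ i) ^ T.card ≤ ∏ p ∈ T, p := by
    apply Finset.pow_card_le_prod
    intro p hp
    rw [hT, Finset.mem_filter, Finset.mem_Ioc] at hp
    exact hp.1.1.le
  have h2 : ∏ p ∈ T, p ≤ primorial (2 ^ (i + 1)) := by
    unfold primorial
    apply Finset.prod_le_prod_of_subset_of_one_le'
    · intro p hp
      rw [hT, Finset.mem_filter, Finset.mem_Ioc] at hp
      rw [Finset.mem_filter, Finset.mem_range]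
      exact ⟨Nat.lt_succ_of_le hp.1.2, hp.2⟩
    · intro p hp _
      rw [Finset.mem_filter] at hp
      exact hp.2.one_lt.le
  have h3 := primorial_le_four_pow (2 ^ (i + 1))
  have h4 : (2 : ℕ) ^ (i * T.card) ≤ 2 ^ (2 ^ (i + 2)) := by
    calc (2 : ℕ) ^ (i * T.card) = (2 ^ i) ^ T.card := by rw [pow_mul]
      _ ≤ 4 ^ 2 ^ (i + 1) := h1.trans (h2.trans h3)
      _ = 2 ^ (2 ^ (i + 2)) := by
        rw [show (4 : ℕ) = 2 ^ 2 by norm_num, ← pow_mul]
        congr 1
        ring
  exact (Nat.pow_le_pow_iff_right (by norm_num)).mp h4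

/-- TASK A5b. PROOF. The block is the disjoint union of the primes of `Ioc (2 ^ i) (2 ^ (i + 1))` for
`2 ^ j ≤ i < 2 ^ (j + 1)` (it is enough that it is contained in the union: `Finset.sum_le_sum_of_subset`
and `Finset.sum_biUnion_le`); each of these contributes at most
`card / 2 ^ i ≤ 4 / i ≤ 4 / 2 ^ j` by `card_dyadic`, and there are `2 ^ j` values of `i`. -/
theorem sum_blk_le (j : ℕ) : ∑ p ∈ blk j, (1 : ℝ) / p ≤ 4 := by
  have hsub : blk j ⊆ (Finset.Ico (2 ^ j) (2 ^ (j + 1))).biUnion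
      (fun i => (Finset.Ioc (2 ^ i) (2 ^ (i + 1))).filter Nat.Prime) := by
    intro p hp
    rw [mem_blk] at hp
    obtain ⟨h1, h2, h3⟩ := hp
    rw [Finset.mem_biUnion]
    -- the exponent
    have hex : ∃ i, p ≤ 2 ^ (i + 1) := ⟨p, by
      have := Nat.lt_two_pow_self (n := p + 1)
      omega⟩
    classical
    let i := Nat.find hex
    have hi : p ≤ 2 ^ (i + 1) := Nat.find_spec hex
    have hmin : ∀ k, k < i → ¬ p ≤ 2 ^ (k + 1) := fun k hk => Nat.find_min hex hk
    have hi2 : 2 ^ j ≤ i := by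
      by_contra hcon
      push Not at hcon
      have : 2 ^ (i + 1) ≤ 2 ^ 2 ^ j := Nat.pow_le_pow_right (by norm_num) hcon
      omega
    have hjpos : 1 ≤ 2 ^ j := Nat.one_le_two_pow
    have hi3 : i < 2 ^ (j + 1) := by
      by_contra hcon
      push Not at hcon
      have hj2 : 2 ≤ 2 ^ (j + 1) := by
        rw [pow_succ]; omega
      have hlt : 2 ^ (j + 1) - 1 < i := by omega
      have := hmin _ hlt
      apply this
      rw [Nat.sub_add_cancel (by omega)]
      exact h2
    have hi4 : 2 ^ i < p := by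
      have hlt : i - 1 < i := by omega
      have := hmin _ hlt
      rw [Nat.sub_add_cancel (by omega)] at this
      omega
    refine ⟨i, Finset.mem_Ico.mpr ⟨hi2, hi3⟩, ?_⟩
    rw [Finset.mem_filter, Finset.mem_Ioc]
    exact ⟨⟨hi4, hi⟩, h3⟩
  have hnn : ∀ p : ℕ, (0 : ℝ) ≤ 1 / p := fun p => by positivity
  set f : ℕ → Finset ℕ := fun i => (Finset.Ioc (2 ^ i) (2 ^ (i + 1))).filter Nat.Prime with hf
  calc ∑ p ∈ blk j, (1 : ℝ) / p
      ≤ ∑ p ∈ ((Finset.Ico (2 ^ j) (2 ^ (j + 1))).biUnion f), (1 : ℝ) / p :=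
        Finset.sum_le_sum_of_subset_of_nonneg hsub (fun p _ _ => hnn p)
    _ = ∑ i ∈ Finset.Ico (2 ^ j) (2 ^ (j + 1)), ∑ p ∈ f i, (1 : ℝ) / p := by
        apply Finset.sum_biUnion
        intro a _ b _ hab
        have key : ∀ a b : ℕ, a < b → ∀ p, p ∈ f a → p ∈ f b → False := by
          intro a b hab p hpa hpb
          rw [hf, Finset.mem_filter, Finset.mem_Ioc] at hpa hpb
          have : 2 ^ (a + 1) ≤ 2 ^ b := Nat.pow_le_pow_right (by norm_num) hab
          omega
        show Disjoint (f a) (f b)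
        rw [Finset.disjoint_left]
        intro p hi hj
        rcases lt_or_gt_of_ne hab with h | h
        · exact key _ _ h p hi hj
        · exact key _ _ h p hj hi
    _ ≤ ∑ i ∈ Finset.Ico (2 ^ j) (2 ^ (j + 1)), (4 : ℝ) / 2 ^ j := by
        apply Finset.sum_le_sum
        intro i hi
        rw [Finset.mem_Ico] at hi
        have hi1 : 1 ≤ i := le_trans Nat.one_le_two_pow hi.1
        have hc := card_dyadic i
        have hc' : (i : ℝ) * (((Finset.Ioc (2 ^ i) (2 ^ (i + 1))).filter Nat.Prime).card : ℝ)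
            ≤ 2 ^ (i + 2) := by exact_mod_cast hc
        calc ∑ p ∈ f i, (1 : ℝ) / p
            ≤ ∑ p ∈ f i, (1 : ℝ) / 2 ^ i := by
              apply Finset.sum_le_sum
              intro p hp
              rw [hf, Finset.mem_filter, Finset.mem_Ioc] at hp
              apply one_div_le_one_div_of_le (by positivity)
              exact_mod_cast hp.1.1.le
          _ = ((f i).card : ℝ) / 2 ^ i := by
              rw [Finset.sum_const, nsmul_eq_mul]; ring
          _ ≤ 4 / i := by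
              rw [div_le_div_iff₀ (by positivity) (by exact_mod_cast hi1)]
              calc _ = (i : ℝ) * ((f i).card : ℝ) := by
                    ring
                _ ≤ 2 ^ (i + 2) := hc'
                _ = 4 * 2 ^ i := by ring
          _ ≤ 4 / 2 ^ j := by
              apply div_le_div_of_nonneg_left (by norm_num) (by positivity)
              exact_mod_cast hi.1
    _ = 4 := by
        rw [Finset.sum_const, Nat.card_Ico, nsmul_eq_mul]
        have : 2 ^ (j + 1) - 2 ^ j = 2 ^ j := by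
          rw [pow_succ]; omega
        rw [this]
        push_cast
        field_simp

theorem card_blk_le (j : ℕ) : (blk j).card ≤ 2 ^ 2 ^ (j + 1) := by
  refine (Finset.card_filter_le _ _).trans ?_
  rw [Nat.card_Ioc]
  exact Nat.sub_le _ _

theorem disjoint_blk {i j : ℕ} (h : i ≠ j) : Disjoint (blk i) (blk j) := by
  have key : ∀ a b : ℕ, a < b → ∀ p, p ∈ blk a → p ∈ blk b → False := by
    intro a b hab p hpa hpb
    rw [mem_blk] at hpa hpb
    have : 2 ^ 2 ^ (a + 1) ≤ 2 ^ 2 ^ b :=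
      Nat.pow_le_pow_right (by norm_num) (Nat.pow_le_pow_right (by norm_num) hab)
    omega
  rw [Finset.disjoint_left]
  intro p hi hj
  rcases lt_or_gt_of_ne h with h | h
  · exact key _ _ h p hi hj
  · exact key _ _ h p hj hi

/-- Every prime `p > 2` with `p ≤ 2 ^ 2 ^ R` is in a block `j < R`. -/
theorem exists_blk {R p : ℕ} (hp : p.Prime) (h2 : 2 < p) (h : p ≤ 2 ^ 2 ^ R) :
    ∃ j, j < R ∧ p ∈ blk j := by
  induction R with
  | zero =>
    exfalso
    norm_num at h
    omega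
  | succ R ih =>
    by_cases hle : p ≤ 2 ^ 2 ^ R
    · obtain ⟨j, hj, hpj⟩ := ih hle
      exact ⟨j, Nat.lt_succ_of_lt hj, hpj⟩
    · push Not at hle
      exact ⟨R, Nat.lt_succ_self R, mem_blk.mpr ⟨hle, h, hp⟩⟩

end Pool.Agent.SievePar
end

section

/-! # The main term -/

set_option autoImplicit false

open Finset

namespace Pool.Agent.SievePar

/-- TASK A7c. PROOF. Blocks `P j = blk j`, `β j = m + (R - 1 - j)`, `w = wt S`. For `p ∈ blk j`:
`w p ≤ k / p`, and `w p ≤ 1 / 2` (either `S p = ∅` or `2 k < 2 ^ 2 ^ l₀ < p`), so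
`∑ p ∈ blk j, w p ≤ 4 k` (`sum_blk_le`), `V j = ∏ (1 - w p) ≥ exp (-8 k)` (`exp_le_prod`),
`V j ≤ T j = TT (blk j) (2 β j) w` (`bonferroni`), `EE (blk l) (2 β l + 1) w ≤ exp (8 k) / 2 ^ (2 β l + 1)`
(`EE_le`). So `∑ l, EE l / T l ≤ exp (16 k) * ∑ l, 1 / 2 ^ (2 m + 2 (R - 1 - l) + 1)
≤ exp (16 k) / 4 ^ m ≤ 1 / 2` (geometric series, reflect the sum), hence
`∏ T - ∑ l, EE l * ∏ j ≠ l, T j = ∏ T * (1 - ∑ l, EE l / T l) ≥ (1 / 2) * ∏ T ≥ (1 / 2) * ∏ V
≥ (1 / 2) * exp (-8 k R)`. -/
theorem main_term {k l₀ m : ℕ} (hk : 2 * k + 1 ≤ 2 ^ 2 ^ l₀)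
    (hm : 2 * Real.exp (16 * k) ≤ 4 ^ m) {S : ℕ → Finset ℕ}
    (hSk : ∀ p, (S p).card ≤ k) (hS0 : ∀ p, p ≤ 2 ^ 2 ^ l₀ → S p = ∅) (R : ℕ) :
    (1 / 2 : ℝ) * Real.exp (-(8 * k * R)) ≤
      ∏ j : Fin R, TT (blk j) (2 * (m + (R - 1 - j))) (wt S) -
        ∑ l : Fin R, EE (blk l) (2 * (m + (R - 1 - l)) + 1) (wt S) *
          ∏ j ∈ univ.erase l, TT (blk j) (2 * (m + (R - 1 - j))) (wt S) := by
  classical
  set w := wt S with hw
  set T : Fin R → ℝ := fun j => TT (blk j) (2 * (m + (R - 1 - j))) w with hT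
  set E : Fin R → ℝ := fun l => EE (blk l) (2 * (m + (R - 1 - l)) + 1) w with hE
  have hw0 : ∀ p, 0 ≤ w p := fun p => by
    rw [hw]
    unfold wt
    positivity
  have hwk : ∀ p, w p ≤ (k : ℝ) * (1 / p) := by
    intro p
    rw [hw]
    unfold wt
    rw [mul_one_div]
    refine div_le_div_of_nonneg_right ?_ (Nat.cast_nonneg _)
    exact_mod_cast hSk p
  have hw2 : ∀ p, w p ≤ 1 / 2 := by
    intro p
    rcases le_or_gt p (2 ^ 2 ^ l₀) with h | h
    · rw [hw]
      unfold wt
      rw [hS0 p h]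
      simp
    · refine (hwk p).trans ?_
      have h1 : (2 * k : ℝ) ≤ p := by
        have : 2 * k ≤ p := by omega
        exact_mod_cast this
      have h2 : (0 : ℝ) < p := by
        have : 0 < p := by omega
        exact_mod_cast this
      rw [mul_one_div, div_le_iff₀ h2]
      linarith
  have hsum : ∀ j : ℕ, ∑ p ∈ blk j, w p ≤ 4 * k := by
    intro j
    calc ∑ p ∈ blk j, w p ≤ ∑ p ∈ blk j, (k : ℝ) * (1 / p) :=
          Finset.sum_le_sum fun p _ => hwk p
      _ = k * ∑ p ∈ blk j, (1 : ℝ) / p := by rw [Finset.mul_sum]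
      _ ≤ k * 4 := mul_le_mul_of_nonneg_left (sum_blk_le j) (Nat.cast_nonneg _)
      _ = 4 * k := mul_comm _ _
  have hTl : ∀ j : Fin R, Real.exp (-(8 * k)) ≤ T j := by
    intro j
    have h1 := exp_le_prod (P := blk j) (w := w) (fun p _ => hw0 p) (fun p _ => hw2 p)
    have h2 := (bonferroni (P := blk j) (w := w) (fun p _ => hw0 p)
      (fun p _ => (hw2 p).trans (by norm_num)) (2 * (m + (R - 1 - j)))).1 (even_two_mul _)
    have h3 : Real.exp (-(8 * k)) ≤ Real.exp (-(2 * ∑ p ∈ blk j, w p)) := by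
      apply Real.exp_le_exp.2
      have := hsum j
      linarith
    exact h3.trans (h1.trans h2)
  have hT0 : ∀ j : Fin R, 0 < T j := fun j => (Real.exp_pos _).trans_le (hTl j)
  have hEl : ∀ l : Fin R, E l ≤ Real.exp (8 * k) / 2 ^ (2 * (m + (R - 1 - l)) + 1) := by
    intro l
    refine (EE_le (P := blk l) (w := w) (fun p _ => hw0 p) _).trans ?_
    refine div_le_div_of_nonneg_right ?_ (by positivity)
    apply Real.exp_le_exp.2
    have := hsum l
    linarith
  set PT : ℝ := ∏ j : Fin R, T j with hPT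
  have hPT0 : 0 < PT := Finset.prod_pos fun j _ => hT0 j
  have hterm : ∀ l : Fin R, E l * ∏ j ∈ univ.erase l, T j ≤
      (Real.exp (16 * k) / 4 ^ m * (1 / 2)) * (1 / 4 : ℝ) ^ (R - 1 - (l : ℕ)) * PT := by
    intro l
    have h1 : T l * ∏ j ∈ univ.erase l, T j = PT := Finset.mul_prod_erase _ _ (Finset.mem_univ l)
    have h2 : 0 ≤ ∏ j ∈ univ.erase l, T j := (Finset.prod_pos fun j _ => hT0 j).le
    have h3 : ∏ j ∈ univ.erase l, T j ≤ Real.exp (8 * k) * PT := by
      rw [← h1, ← mul_assoc]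
      have h4 : 1 ≤ Real.exp (8 * k) * T l := by
        calc (1 : ℝ) = Real.exp (8 * k) * Real.exp (-(8 * k)) := by
              rw [← Real.exp_add, add_neg_cancel, Real.exp_zero]
          _ ≤ _ := mul_le_mul_of_nonneg_left (hTl l) (Real.exp_pos _).le
      calc ∏ j ∈ univ.erase l, T j = 1 * ∏ j ∈ univ.erase l, T j := (one_mul _).symm
        _ ≤ _ := mul_le_mul_of_nonneg_right h4 h2
    calc E l * ∏ j ∈ univ.erase l, T j
        ≤ (Real.exp (8 * k) / 2 ^ (2 * (m + (R - 1 - l)) + 1)) * (Real.exp (8 * k) * PT) :=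
          mul_le_mul (hEl l) h3 h2 (by positivity)
      _ = _ := by
          have h5 : (2 : ℝ) ^ (2 * (m + (R - 1 - (l : ℕ))) + 1) =
              4 ^ m * 4 ^ (R - 1 - (l : ℕ)) * 2 := by
            rw [pow_succ, pow_mul, ← pow_add]
            norm_num
          have h6 : Real.exp (16 * k) = Real.exp (8 * k) * Real.exp (8 * k) := by
            rw [← Real.exp_add]
            congr 1
            ring
          rw [h5, h6, div_pow, one_pow]
          field_simp
  have hgeo : ∑ l : Fin R, (1 / 4 : ℝ) ^ (R - 1 - (l : ℕ)) ≤ 2 := by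
    have h1 : ∑ l : Fin R, (1 / 4 : ℝ) ^ (R - 1 - (l : ℕ)) =
        ∑ i ∈ Finset.range R, (1 / 4 : ℝ) ^ (R - 1 - i) :=
      Fin.sum_univ_eq_sum_range (fun i => (1 / 4 : ℝ) ^ (R - 1 - i)) R
    rw [h1, Finset.sum_range_reflect (fun i => (1 / 4 : ℝ) ^ i) R,
      geom_sum_eq (by norm_num : (1 / 4 : ℝ) ≠ 1) R]
    have h8 : (0 : ℝ) < (1 / 4) ^ R := by positivity
    rw [div_le_iff_of_neg (by norm_num)]
    linarith
  have hsumE : ∑ l : Fin R, E l * ∏ j ∈ univ.erase l, T j ≤ 1 / 2 * PT := by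
    calc _ ≤ ∑ l : Fin R, (Real.exp (16 * k) / 4 ^ m * (1 / 2)) *
          (1 / 4 : ℝ) ^ (R - 1 - (l : ℕ)) * PT := Finset.sum_le_sum fun l _ => hterm l
      _ = (Real.exp (16 * k) / 4 ^ m * (1 / 2)) *
          (∑ l : Fin R, (1 / 4 : ℝ) ^ (R - 1 - (l : ℕ))) * PT := by
          rw [Finset.mul_sum, Finset.sum_mul]
      _ ≤ (Real.exp (16 * k) / 4 ^ m * (1 / 2)) * 2 * PT := by
          refine mul_le_mul_of_nonneg_right ?_ hPT0.le
          exact mul_le_mul_of_nonneg_left hgeo (by positivity)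
      _ = (Real.exp (16 * k) / 4 ^ m) * PT := by ring
      _ ≤ _ := by
          refine mul_le_mul_of_nonneg_right ?_ hPT0.le
          rw [div_le_iff₀ (by positivity)]
          linarith
  have hPTl : Real.exp (-(8 * k * R)) ≤ PT := by
    calc Real.exp (-(8 * k * R)) = ∏ _j : Fin R, Real.exp (-(8 * k)) := by
          rw [Finset.prod_const, Finset.card_univ, Fintype.card_fin, ← Real.exp_nat_mul]
          congr 1
          ring
      _ ≤ PT := Finset.prod_le_prod (fun _ _ => (Real.exp_pos _).le) (fun j _ => hTl j)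
  linarith

end Pool.Agent.SievePar
end

section

/-! # Polynomials: roots modulo primes, size, number of prime factors -/

set_option autoImplicit false

open Finset Polynomial

namespace Pool.Agent.SievePar

/-- The roots modulo `p`. -/
def rts (F : ℤ[X]) (p : ℕ) : Finset ℕ :=
  if p.Prime then (range p).filter fun s => (p : ℤ) ∣ F.eval (s : ℤ) else ∅

/-- The numbers `s < y` such that `G (c s)` is not zero and has at most `K` prime factors. -/
noncomputable def gd (G : ℤ[X]) (c K y : ℕ) : Finset ℕ :=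
  (range y).filter fun s : ℕ => G.eval ((c * s : ℕ) : ℤ) ≠ 0 ∧
    ArithmeticFunction.cardFactors (G.eval ((c * s : ℕ) : ℤ)).natAbs ≤ K

theorem mem_gd {G : ℤ[X]} {c K y s : ℕ} :
    s ∈ gd G c K y ↔ s < y ∧ G.eval ((c * s : ℕ) : ℤ) ≠ 0 ∧
      ArithmeticFunction.cardFactors (G.eval ((c * s : ℕ) : ℤ)).natAbs ≤ K := by
  unfold gd
  rw [Finset.mem_filter, Finset.mem_range]

/-- TASK A8a. PROOF. For `p` prime the map `s ↦ (s : ZMod p)` is injective on `range p` and sends the
set into the roots of `F.map (Int.castRingHom (ZMod p))`, which is not zero because its constant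
coefficient is `1`; `Polynomial.card_roots'`, `Polynomial.natDegree_map_le`,
`Polynomial.eval_intCast_map`/`ZMod.intCast_zmod_eq_zero_iff_dvd` (names to be checked). -/
theorem card_rts_le (F : ℤ[X]) (hF : F.coeff 0 = 1) (p : ℕ) :
    (rts F p).card ≤ F.natDegree := by
  classical
  unfold rts
  split_ifs with hp
  swap
  · simp
  have : Fact p.Prime := ⟨hp⟩
  set P : (ZMod p)[X] := F.map (Int.castRingHom (ZMod p)) with hP
  have hP0 : P ≠ 0 := by
    intro h
    have h1 : P.coeff 0 = 0 := by rw [h]; simp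
    rw [hP, Polynomial.coeff_map, hF] at h1
    simp at h1
  have hsub : (((range p).filter fun s : ℕ => (p : ℤ) ∣ F.eval (s : ℤ)).image
      (fun s : ℕ => (s : ZMod p))) ⊆ P.roots.toFinset := by
    intro x hx
    rw [Finset.mem_image] at hx
    obtain ⟨s, hs, rfl⟩ := hx
    rw [Finset.mem_filter] at hs
    rw [Multiset.mem_toFinset, Polynomial.mem_roots hP0, Polynomial.IsRoot.def, hP]
    have h2 : ((s : ℕ) : ZMod p) = (Int.castRingHom (ZMod p)) ((s : ℕ) : ℤ) := by simp
    rw [h2, Polynomial.eval_map_apply]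
    have h3 := (ZMod.intCast_zmod_eq_zero_iff_dvd (F.eval (s : ℤ)) p).2 hs.2
    simpa using h3
  have hinj : Set.InjOn (fun s : ℕ => (s : ZMod p))
      ((range p).filter fun s : ℕ => (p : ℤ) ∣ F.eval (s : ℤ) : Finset ℕ) := by
    intro a ha b hb hab
    rw [Finset.mem_coe, Finset.mem_filter, Finset.mem_range] at ha hb
    have h4 := (ZMod.natCast_eq_natCast_iff' a b p).1 hab
    rwa [Nat.mod_eq_of_lt ha.1, Nat.mod_eq_of_lt hb.1] at h4
  calc ((range p).filter fun s : ℕ => (p : ℤ) ∣ F.eval (s : ℤ)).card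
      = (((range p).filter fun s : ℕ => (p : ℤ) ∣ F.eval (s : ℤ)).image
          (fun s : ℕ => (s : ZMod p))).card := (Finset.card_image_of_injOn hinj).symm
    _ ≤ P.roots.toFinset.card := Finset.card_le_card hsub
    _ ≤ Multiset.card P.roots := Multiset.toFinset_card_le _
    _ ≤ P.natDegree := Polynomial.card_roots' P
    _ ≤ F.natDegree := Polynomial.natDegree_map_le

/-- TASK A8b. PROOF. `p ∣ s - s % p` divides `F.eval s - F.eval (s % p)`
(`Polynomial.sub_dvd_eval_sub`). -/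
theorem mod_mem_rts (F : ℤ[X]) {p : ℕ} (hp : p.Prime) (s : ℕ) :
    s % p ∈ rts F p ↔ (p : ℤ) ∣ F.eval (s : ℤ) := by
  unfold rts
  rw [if_pos hp, Finset.mem_filter, Finset.mem_range]
  have hlt : s % p < p := Nat.mod_lt _ hp.pos
  have h1 : (p : ℤ) ∣ (s : ℤ) - ((s % p : ℕ) : ℤ) := by
    rw [Int.natCast_mod]
    exact Int.dvd_self_sub_emod
  have h2 : (p : ℤ) ∣ F.eval (s : ℤ) - F.eval ((s % p : ℕ) : ℤ) :=
    h1.trans (Polynomial.sub_dvd_eval_sub _ _ F)
  constructor
  · rintro ⟨-, h3⟩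
    have h4 := dvd_add h2 h3
    rwa [sub_add_cancel] at h4
  · intro h3
    refine ⟨hlt, ?_⟩
    have h4 := dvd_sub h3 h2
    rwa [sub_sub_cancel] at h4

/-- TASK A8c. PROOF. `|F.eval s| ≤ ∑ i ∈ range (natDegree + 1), |coeff i| * s ^ i`
(`Polynomial.eval_eq_sum_range`) and `s ^ i ≤ Y ^ natDegree` for `s ≤ Y`, `1 ≤ Y`. -/
theorem natAbs_eval_le (F : ℤ[X]) :
    ∃ C : ℕ, 1 ≤ C ∧ ∀ Y s : ℕ, 1 ≤ Y → s ≤ Y → (F.eval (s : ℤ)).natAbs ≤ C * Y ^ F.natDegree := by
  refine ⟨(∑ i ∈ range (F.natDegree + 1), (F.coeff i).natAbs) + 1, Nat.le_add_left _ _, ?_⟩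
  intro Y s hY hs
  rw [Polynomial.eval_eq_sum_range]
  calc (∑ i ∈ range (F.natDegree + 1), F.coeff i * (s : ℤ) ^ i).natAbs
      ≤ ∑ i ∈ range (F.natDegree + 1), (F.coeff i * (s : ℤ) ^ i).natAbs := Int.natAbs_sum_le _ _
    _ = ∑ i ∈ range (F.natDegree + 1), (F.coeff i).natAbs * s ^ i := by
        refine Finset.sum_congr rfl fun i _ => ?_
        rw [Int.natAbs_mul, Int.natAbs_pow, Int.natAbs_natCast]
    _ ≤ ∑ i ∈ range (F.natDegree + 1), (F.coeff i).natAbs * Y ^ F.natDegree := by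
        refine Finset.sum_le_sum fun i hi => ?_
        refine Nat.mul_le_mul_left _ ?_
        rw [Finset.mem_range] at hi
        exact (Nat.pow_le_pow_left hs i).trans (Nat.pow_le_pow_right hY (by omega))
    _ = (∑ i ∈ range (F.natDegree + 1), (F.coeff i).natAbs) * Y ^ F.natDegree := by
        rw [Finset.sum_mul]
    _ ≤ _ := Nat.mul_le_mul_right _ (Nat.le_succ _)

/-- TASK A8d. PROOF. `n = (n.primeFactorsList).prod` has `Ω n` factors, each `> z`:
`(z + 1) ^ Ω n ≤ n < (z + 1) ^ (m + 1)`. -/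
theorem Omega_le {n z m : ℕ} (hn : n ≠ 0) (hz : 1 ≤ z) (h : ∀ p, p.Prime → p ∣ n → z < p)
    (hle : n ≤ z ^ m) : ArithmeticFunction.cardFactors n ≤ m := by
  rw [ArithmeticFunction.cardFactors_apply]
  by_contra hcon
  push Not at hcon
  have h1 : (z + 1) ^ n.primeFactorsList.length ≤ n.primeFactorsList.prod := by
    apply List.pow_card_le_prod
    intro p hp
    exact h p (Nat.prime_of_mem_primeFactorsList hp) (Nat.dvd_of_mem_primeFactorsList hp)
  rw [Nat.prod_primeFactorsList hn] at h1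
  have h2 : (z + 1) ^ (m + 1) ≤ (z + 1) ^ n.primeFactorsList.length :=
    Nat.pow_le_pow_right (Nat.succ_pos _) hcon
  have h3 : z ^ m < (z + 1) ^ (m + 1) := by
    calc z ^ m ≤ (z + 1) ^ m := Nat.pow_le_pow_left (Nat.le_succ z) m
      _ < (z + 1) ^ (m + 1) := Nat.pow_lt_pow_right (by omega) (Nat.lt_succ_self m)
  omega

end Pool.Agent.SievePar
end
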